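import Mathlib

set_option autoImplicit false

/-!
# Elementary inequalities for the windows (several points, number fields)
-/

namespace Pool.Agent.Run7.h151.FN

open Filter Topology Finset

theorem sqrt_add_le {a b : ℝ} (ha : 0 ≤ a) (hb : 0 ≤ b) : √(a + b) ≤ √a + √b := by
  rw [Real.sqrt_le_left (by positivity)]
  nlinarith [Real.sq_sqrt ha, Real.sq_sqrt hb, Real.sqrt_nonneg a, Real.sqrt_nonneg b,
    mul_nonneg (Real.sqrt_nonneg a) (Real.sqrt_nonneg b)]

/-- `3 √(8 w) ≤ w + 18` -/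
theorem absorb3 {w : ℝ} (hw : 0 ≤ w) : 3 * √(8 * w) ≤ w + 18 := by
  have h0 : 0 ≤ 8 * w := by linarith
  have h1 := Real.sq_sqrt h0
  nlinarith [sq_nonneg (√(8 * w) - 12)]

/-- `2 √(c w) ≤ w + c` -/
theorem absorb2 {c w : ℝ} (hc : 0 ≤ c) (hw : 0 ≤ w) : 2 * √(c * w) ≤ w + c := by
  rw [Real.sqrt_mul hc]
  nlinarith [sq_nonneg (√c - √w), Real.sq_sqrt hc, Real.sq_sqrt hw]

/-- one term of the second order -/
theorem term_le {m c Y w L : ℝ} (hL : 1 ≤ L) (hc : 0 ≤ c) (hw : 0 ≤ w) (hY : 0 ≤ Y)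
    (h : m ≤ c * Y + w) : √(8 * m / L) ≤ √(8 * c * Y / L) + √(8 * w) := by
  have hL0 : 0 < L := by linarith
  have h1 : 8 * m / L ≤ 8 * c * Y / L + 8 * w := by
    have h2 : 8 * m / L ≤ (8 * c * Y + 8 * w) / L :=
      div_le_div_of_nonneg_right (by linarith) hL0.le
    refine h2.trans ?_
    rw [add_div]
    have : 8 * w / L ≤ 8 * w := div_le_self (by positivity) hL
    linarith
  exact (Real.sqrt_le_sqrt h1).trans (sqrt_add_le (by positivity) (by positivity))

/-- the gain exponent of one point in the window `m` -/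
noncomputable def kp (a Y m : ℝ) : ℝ := max 0 (1 - a * Y / m)

theorem kp_nonneg (a Y m : ℝ) : 0 ≤ kp a Y m := le_max_left _ _

theorem kp_mul {a Y m : ℝ} (hm : 0 < m) : kp a Y m * m = max 0 (m - a * Y) := by
  unfold kp
  rw [max_mul_of_nonneg _ _ hm.le, zero_mul, sub_mul, one_mul, div_mul_cancel₀ _ hm.ne']

/-- the exponent of the window `m`, three points -/
theorem three_bound {a : Fin 3 → ℝ} {Y m L : ℝ} (h01 : a 0 ≤ a 1) (h12 : a 1 ≤ a 2)
    (hY : 0 ≤ Y) (hm : 0 < m) (hL : 1 ≤ L) :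
    (2 - ∑ l, kp (a l) Y m) * m + ∑ l, √(8 * kp (a l) Y m * m / L) ≤
      (a 0 + a 1) * Y + √(8 * (a 2 - a 0) * Y / L) + √(8 * (a 2 - a 1) * Y / L) + 18 := by
  obtain ⟨w, hw⟩ : ∃ w : ℝ, w = max 0 (m - a 2 * Y) := ⟨_, rfl⟩
  have hw0 : 0 ≤ w := by rw [hw]; exact le_max_left _ _
  have hw1 : m - a 2 * Y ≤ w := by rw [hw]; exact le_max_right _ _
  have e : ∀ l, kp (a l) Y m * m = max 0 (m - a l * Y) := fun l => kp_mul hm
  have e8 : ∀ l, 8 * kp (a l) Y m * m = 8 * (max 0 (m - a l * Y)) := fun l => by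
    rw [mul_assoc, e l]
  have t0 : max 0 (m - a 0 * Y) ≤ (a 2 - a 0) * Y + w := by
    refine max_le ?_ ?_
    · have := mul_nonneg (by linarith : 0 ≤ a 2 - a 0) hY
      linarith
    · linarith
  have t1 : max 0 (m - a 1 * Y) ≤ (a 2 - a 1) * Y + w := by
    refine max_le ?_ ?_
    · have := mul_nonneg (by linarith : 0 ≤ a 2 - a 1) hY
      linarith
    · linarith
  have t2 : max 0 (m - a 2 * Y) ≤ 0 * Y + w := by
    rw [← hw]; linarith
  have s0 := term_le hL (by linarith : 0 ≤ a 2 - a 0) hw0 hY t0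
  have s1 := term_le hL (by linarith : 0 ≤ a 2 - a 1) hw0 hY t1
  have s2 := term_le hL (le_refl (0 : ℝ)) hw0 hY t2
  rw [mul_zero, zero_mul, zero_div, Real.sqrt_zero, zero_add] at s2
  have f0 : m - a 0 * Y ≤ max 0 (m - a 0 * Y) := le_max_right _ _
  have f1 : m - a 1 * Y ≤ max 0 (m - a 1 * Y) := le_max_right _ _
  have hab := absorb3 hw0
  have e2 : (2 - ∑ l, kp (a l) Y m) * m = 2 * m - max 0 (m - a 0 * Y) - max 0 (m - a 1 * Y) - w := by
    rw [Fin.sum_univ_three, hw, ← e 0, ← e 1, ← e 2]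
    ring
  rw [e2, Fin.sum_univ_three, e8, e8, e8]
  linarith

/-- the gain of the window `m`, `q` points together -/
noncomputable def gq (q κ C Y m : ℝ) : ℝ := max (κ * m - C) (q * m - Y - C)

theorem gq_bound {q κ C Y m L ε : ℝ} (hq : 3 ≤ q) (hκ0 : 0 < κ) (hκ1 : κ ≤ 1) (hC : 0 ≤ C)
    (hY : 0 ≤ Y) (hL : 1 ≤ L) (hε : 0 ≤ ε) (hε1 : ε ≤ 1) :
    2 * m - gq q κ C Y m + (1 + ε) * √(8 * q * gq q κ C Y m / L) ≤
      (2 - κ) / (q - κ) * Y + C + 8 * q ^ 2 +
        (1 + ε) * √(8 * q * (κ / (q - κ)) * Y / L) := by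
  have hL0 : 0 < L := by linarith
  have hqκ : 0 < q - κ := by linarith
  obtain ⟨M, hM⟩ : ∃ M : ℝ, M = 1 / (q - κ) := ⟨_, rfl⟩
  have hM0 : 0 < M := by rw [hM]; positivity
  have hMq : M * (q - κ) = 1 := by rw [hM]; field_simp
  obtain ⟨w, hw⟩ : ∃ w : ℝ, w = m - M * Y := ⟨_, rfl⟩
  have hm : m = M * Y + w := by rw [hw]; ring
  have e1 : κ * m - C = κ * M * Y + κ * w - C := by rw [hm]; ring
  have e2 : q * m - Y - C = κ * M * Y + q * w - C := by
    rw [hm]
    linear_combination Y * hMq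
  have e3 : (2 - κ) / (q - κ) = (2 - κ) * M := by rw [hM]; ring
  have e4 : κ / (q - κ) = κ * M := by rw [hM]; ring
  rw [e3, e4]
  have hwa : 0 ≤ |w| := abs_nonneg w
  have g1 : 2 * m - gq q κ C Y m ≤ (2 - κ) * M * Y + C - |w| := by
    unfold gq
    rcases le_or_gt 0 w with h | h
    · rw [abs_of_nonneg h]
      have h1 := le_max_right (κ * m - C) (q * m - Y - C)
      rw [e2] at h1
      have h2 : 2 * m = 2 * M * Y + 2 * w := by rw [hm]; ring
      have h3 : (3 : ℝ) * w ≤ q * w := mul_le_mul_of_nonneg_right hq h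
      rw [e1, e2, h2]
      rw [e1] at h1
      linarith
    · rw [abs_of_neg h]
      have h1 := le_max_left (κ * m - C) (q * m - Y - C)
      rw [e1] at h1
      have h2 : 2 * m = 2 * M * Y + 2 * w := by rw [hm]; ring
      have h3 : w * 1 ≤ w * κ := mul_le_mul_of_nonpos_left hκ1 h.le
      rw [e1, e2, h2]
      rw [e2] at h1
      linarith
  have g2 : gq q κ C Y m ≤ κ * M * Y + q * |w| := by
    unfold gq
    refine max_le ?_ ?_
    · rw [e1]
      have : κ * w ≤ q * |w| := by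
        calc κ * w ≤ κ * |w| := mul_le_mul_of_nonneg_left (le_abs_self w) hκ0.le
          _ ≤ q * |w| := mul_le_mul_of_nonneg_right (by linarith) hwa
      linarith
    · rw [e2]
      have := mul_le_mul_of_nonneg_left (le_abs_self w) (by linarith : 0 ≤ q)
      linarith
  have hk : 0 ≤ κ * M * Y := by positivity
  have g3 : √(8 * q * gq q κ C Y m / L) ≤
      √(8 * q * (κ * M) * Y / L) + √(8 * q ^ 2 * |w|) := by
    have e5 : 8 * q * gq q κ C Y m / L ≤ 8 * q * (κ * M) * Y / L + 8 * q ^ 2 * |w| := by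
      have e6 : 8 * q * gq q κ C Y m / L ≤ (8 * q * (κ * M) * Y + 8 * q ^ 2 * |w|) / L := by
        refine div_le_div_of_nonneg_right ?_ hL0.le
        calc 8 * q * gq q κ C Y m ≤ 8 * q * (κ * M * Y + q * |w|) :=
              mul_le_mul_of_nonneg_left g2 (by linarith)
          _ = _ := by ring
      refine e6.trans ?_
      rw [add_div]
      have : 8 * q ^ 2 * |w| / L ≤ 8 * q ^ 2 * |w| := div_le_self (by positivity) hL
      linarith
    refine (Real.sqrt_le_sqrt e5).trans (sqrt_add_le ?_ (by positivity))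
    have : 0 ≤ 8 * q * (κ * M) * Y := by
      have : 8 * q * (κ * M) * Y = 8 * q * (κ * M * Y) := by ring
      rw [this]
      exact mul_nonneg (by linarith) hk
    exact div_nonneg this hL0.le
  have g4 := absorb2 (c := 8 * q ^ 2) (by positivity) hwa
  have g5 : (1 + ε) * √(8 * q * gq q κ C Y m / L) ≤
      (1 + ε) * √(8 * q * (κ * M) * Y / L) + 2 * √(8 * q ^ 2 * |w|) := by
    calc (1 + ε) * √(8 * q * gq q κ C Y m / L) ≤
        (1 + ε) * (√(8 * q * (κ * M) * Y / L) + √(8 * q ^ 2 * |w|)) :=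
          mul_le_mul_of_nonneg_left g3 (by linarith)
      _ = (1 + ε) * √(8 * q * (κ * M) * Y / L) + (1 + ε) * √(8 * q ^ 2 * |w|) := by ring
      _ ≤ _ := by
        have : (1 + ε) * √(8 * q ^ 2 * |w|) ≤ 2 * √(8 * q ^ 2 * |w|) :=
          mul_le_mul_of_nonneg_right (by linarith) (Real.sqrt_nonneg _)
        linarith
  linarith

/-- the conditions of the window -/
theorem gq_cond {q κ C Y m δ : ℝ} (hq : 3 ≤ q) (hκ0 : 0 < κ) (hκ : κ ≤ 1 / 4) (hδ : δ ≤ κ / 2)
    (hC0 : 0 ≤ C) (hC : C ≤ κ / 2 * m) (hY : 0 ≤ Y)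
    (hm : m ≤ (q + κ) / (q * (q - κ)) * Y + 1) (hbig : 4 * q ≤ κ / q ^ 2 * Y) :
    δ * m ≤ gq q κ C Y m ∧ gq q κ C Y m ≤ (6 / 7 - δ) * m := by
  have hm0 : 0 ≤ m := by
    by_contra h
    push Not at h
    nlinarith
  have hqκ : 0 < q - κ := by linarith
  have hq0 : 0 < q := by linarith
  unfold gq
  constructor
  · refine le_trans ?_ (le_max_left _ _)
    have : δ * m ≤ κ / 2 * m := mul_le_mul_of_nonneg_right hδ hm0
    linarith
  · refine max_le ?_ ?_
    · have : (κ + δ) * m ≤ 6 / 7 * m := mul_le_mul_of_nonneg_right (by linarith) hm0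
      linarith
    · -- `(q - 6/7 + δ) m ≤ Y`
      have h1 : (q - 6 / 7 + δ) * m ≤ (q - 6 / 7 + κ / 2) * m :=
        mul_le_mul_of_nonneg_right (by linarith) hm0
      have h2 : (q - 6 / 7 + κ / 2) * m ≤
          (q - 6 / 7 + κ / 2) * ((q + κ) / (q * (q - κ)) * Y + 1) :=
        mul_le_mul_of_nonneg_left hm (by linarith)
      have h3 : (q - 6 / 7 + κ / 2) * ((q + κ) / (q * (q - κ))) ≤ 1 - κ / q ^ 2 := by
        rw [← mul_div_assoc, div_le_iff₀ (by positivity)]
        have e : (1 - κ / q ^ 2) * (q * (q - κ)) = q * (q - κ) - κ * (q - κ) / q := by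
          field_simp
        rw [e]
        have h4 : κ * (q - κ) / q ≤ κ := by
          rw [div_le_iff₀ hq0]
          nlinarith
        nlinarith
      have h4 : (q - 6 / 7 + κ / 2) * ((q + κ) / (q * (q - κ)) * Y + 1) ≤
          (1 - κ / q ^ 2) * Y + q := by
        calc (q - 6 / 7 + κ / 2) * ((q + κ) / (q * (q - κ)) * Y + 1) =
            (q - 6 / 7 + κ / 2) * ((q + κ) / (q * (q - κ))) * Y + (q - 6 / 7 + κ / 2) := by ring
          _ ≤ (1 - κ / q ^ 2) * Y + q := by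
            have := mul_le_mul_of_nonneg_right h3 hY
            linarith
      linarith

/-- the logarithms of `Y` and `b Y` -/
theorem ev_log {b : ℝ} (hb : 0 < b) (ε : ℝ) (hε : 0 < ε) : ∀ᶠ Y : ℝ in atTop, 1 < Y ∧
    ∀ m : ℝ, b * Y ≤ m → 1 ≤ Real.log m ∧ Real.log Y ≤ (1 + ε) * Real.log m := by
  have h : Tendsto (fun Y : ℝ => ε * Real.log Y) atTop atTop :=
    Real.tendsto_log_atTop.const_mul_atTop hε
  filter_upwards [eventually_gt_atTop (1 : ℝ), h.eventually_ge_atTop (-(1 + ε) * Real.log b),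
    Real.tendsto_log_atTop.eventually_ge_atTop (1 - Real.log b)]
    with Y h1 h2 h3
  refine ⟨h1, fun m hm => ?_⟩
  have h4 : Real.log b + Real.log Y ≤ Real.log m := by
    rw [← Real.log_mul hb.ne' (by linarith)]
    exact Real.log_le_log (by positivity) hm
  refine ⟨by linarith, ?_⟩
  have := mul_le_mul_of_nonneg_left h4 (by linarith : 0 ≤ 1 + ε)
  linarith

theorem sqrt_log_le {ε c Y m : ℝ} (hε : 0 ≤ ε) (hc : 0 ≤ c) (hY : 1 < Y) (hm0 : 1 ≤ Real.log m)
    (hm : Real.log Y ≤ (1 + ε) * Real.log m) :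
    √(c * Y / Real.log m) ≤ (1 + ε) * √(c * Y / Real.log Y) := by
  have hl : 0 < Real.log Y := Real.log_pos hY
  have hlm : 0 < Real.log m := by linarith
  have h1 : c * Y / Real.log m ≤ (1 + ε) ^ 2 * (c * Y / Real.log Y) := by
    have h2 : c * Y / Real.log m ≤ (1 + ε) * (c * Y / Real.log Y) := by
      rw [← mul_div_assoc, div_le_div_iff₀ hlm hl]
      have h3 : 0 ≤ c * Y := mul_nonneg hc (by linarith)
      calc c * Y * Real.log Y ≤ c * Y * ((1 + ε) * Real.log m) :=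
            mul_le_mul_of_nonneg_left hm h3
        _ = _ := by ring
    refine h2.trans ?_
    have h4 : 0 ≤ c * Y / Real.log Y := div_nonneg (mul_nonneg hc (by linarith)) hl.le
    refine mul_le_mul_of_nonneg_right ?_ h4
    nlinarith
  calc √(c * Y / Real.log m) ≤ √((1 + ε) ^ 2 * (c * Y / Real.log Y)) := Real.sqrt_le_sqrt h1
    _ = (1 + ε) * √(c * Y / Real.log Y) := by
      rw [Real.sqrt_mul (sq_nonneg _), Real.sqrt_sq (by linarith)]

/-- the second order term is larger than every multiple of the logarithm -/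
theorem ev_small (ε A C : ℝ) (hε : 0 < ε) (hA : 0 < A) : ∀ᶠ Y : ℝ in atTop,
    Real.log (A * (Y + 5)) + C ≤ ε * √(Y / Real.log Y) := by
  have h1 : Tendsto (fun Y : ℝ => Real.log Y ^ 3 / Y) atTop (𝓝 0) := by
    have := (isLittleO_log_rpow_atTop (r := 1 / 3) (by norm_num)).tendsto_div_nhds_zero
    have h2 := this.pow 3
    rw [zero_pow (by norm_num)] at h2
    refine h2.congr' ?_
    filter_upwards [eventually_gt_atTop (0 : ℝ)] with Y hY
    rw [div_pow, ← Real.rpow_natCast (Y ^ (1 / 3 : ℝ)), ← Real.rpow_mul hY.le]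
    norm_num
  have h3 : ∀ᶠ Y : ℝ in atTop, Real.log Y ^ 3 / Y < ε ^ 2 / 9 :=
    h1.eventually_lt_const (by positivity)
  have h4 : ∀ᶠ Y : ℝ in atTop, |Real.log A| + |C| + 2 ≤ Real.log Y :=
    Real.tendsto_log_atTop.eventually_ge_atTop _
  filter_upwards [h3, h4, eventually_gt_atTop (5 : ℝ)] with Y a1 a2 a3
  have hA' := abs_nonneg (Real.log A)
  have hC' := abs_nonneg C
  have hl : 0 < Real.log Y := Real.log_pos (by linarith)
  have b1 : Real.log (Y + 5) ≤ Real.log Y + Real.log 2 := by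
    rw [← Real.log_mul (by linarith) (by norm_num)]
    exact Real.log_le_log (by linarith) (by linarith)
  have b2 : Real.log 2 ≤ 1 := by linarith [Real.log_two_lt_d9]
  have b3 : Real.log (A * (Y + 5)) + C ≤ 3 * Real.log Y := by
    rw [Real.log_mul hA.ne' (by linarith)]
    linarith [le_abs_self C, le_abs_self (Real.log A)]
  refine b3.trans ?_
  rw [div_lt_iff₀ (by linarith)] at a1
  have b4 : (3 * Real.log Y / ε) ^ 2 ≤ Y / Real.log Y := by
    rw [le_div_iff₀ hl, div_pow, div_mul_eq_mul_div, div_le_iff₀ (by positivity)]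
    nlinarith
  have b5 : 3 * Real.log Y / ε ≤ √(Y / Real.log Y) := Real.le_sqrt_of_sq_le b4
  rw [div_le_iff₀ hε] at b5
  linarith

end Pool.Agent.Run7.h151.FN
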