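import Pool.Agent.Run7.h151.FN.Proj

/-!
# The final statements
-/

set_option autoImplicit false
set_option linter.unusedSectionVars false

namespace Pool.Agent.Run7.h151.FN

open NumberField IsDedekindDomain Finset Filter Topology Module Pool.Agent.H691R3
open Pool.Agent.W223.AK Pool.Agent.N906.KG

section points

variable {K : Type} [Field K] [NumberField K] {q : ℕ}

theorem PT_mono {T : Set (Pr K)} {α : Fin q → Fin 2 → K} {κ c Λ Λ' : ℝ} (h : Λ ≤ Λ') :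
    PT T α κ c Λ ⊆ PT T α κ c Λ' := fun _ hP => ⟨hP.1, hP.2.1.trans h, hP.2.2⟩

theorem PT_final {T : Set (Pr K)} (hT : T.Finite) (hq : 3 ≤ q) {α : Fin q → Fin 2 → K}
    (hα0 : ∀ i, α i ≠ 0) (hα : ∀ i j, i ≠ j → α i 0 * α j 1 - α i 1 * α j 0 ≠ 0) :
    ∃ κ₀ : ℝ, 0 < κ₀ ∧ ∀ κ c : ℝ, 0 < κ → κ < κ₀ → (∀ Λ : ℝ, (PT T α κ c Λ).Finite) ∧
      Tendsto (fun X : ℝ => (Real.log ((PT T α κ c (Real.log X)).ncard : ℝ) -
        (2 - κ) / ((q : ℝ) - κ) * Real.log X) /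
          √(Real.log X / Real.log (Real.log X))) atTop (𝓝 √(8 * q * κ / ((q : ℝ) - κ))) := by
  have hqR : (3 : ℝ) ≤ q := by exact_mod_cast hq
  obtain ⟨κ₀, h0, h1, hup⟩ := PT_upper hT hq hα0 hα
  refine ⟨κ₀, h0, fun κ c hκ0 hκ => ?_⟩
  have hup' := hup κ hκ0 hκ.le c
  have hqκ : 0 < (q : ℝ) - κ := by linarith
  have hfin : ∀ᶠ Y : ℝ in atTop, (PT T α κ c Y).Finite := by
    filter_upwards [hup' 1 one_pos] with Y hY
    exact hY.1
  refine ⟨fun Λ => ?_, ?_⟩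
  · obtain ⟨Y, hY1, hY2⟩ := (hfin.and (eventually_ge_atTop Λ)).exists
    exact hY1.subset (PT_mono hY2)
  · have e : √(8 * q * κ / ((q : ℝ) - κ)) = √(8 * q * (κ / ((q : ℝ) - κ))) := by
      rw [mul_div_assoc]
    rw [e]
    refine limit_of (Real.sqrt_pos.2 (by positivity)) (div_pos (by linarith) hqκ)
      (fun Y => ((PT T α κ c Y).ncard : ℝ)) (fun ε hε => ?_) (fun ε hε hε1 => ?_)
    · filter_upwards [hup' ε hε] with Y hY
      exact hY.2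
    · exact PT_lower hT hq hα0 hα hκ0 (by linarith) c hfin hε hε1

theorem JA_mono {T : Set (Pr K)} {α : Fin q → Fin 2 → K} {a : Fin q → ℝ} (ha : ∀ l, 0 ≤ a l)
    {Λ Λ' : ℝ} (h : Λ ≤ Λ') : JA T α a Λ ⊆ JA T α a Λ' :=
  fun _ hP => ⟨hP.1, fun l => (hP.2 l).trans (mul_le_mul_of_nonneg_left h (ha l))⟩

theorem JA_final {T : Set (Pr K)} (hT : T.Finite) {n : ℕ} {α : Fin (n + 3) → Fin 2 → K}
    (hα0 : ∀ i, α i ≠ 0) (hα : ∀ i j, i ≠ j → α i 0 * α j 1 - α i 1 * α j 0 ≠ 0) :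
    ∃ θ : ℝ, 0 < θ ∧ ∀ a : Fin (n + 3) → ℝ, Monotone a → 0 < a 0 → a 0 < a 2 →
      a 2 < (1 + θ) * a 0 → (∀ Λ : ℝ, (JA T α a Λ).Finite) ∧
      Tendsto (fun X : ℝ => (Real.log ((JA T α a (Real.log X)).ncard : ℝ) -
        (a 0 + a 1) * Real.log X) / √(Real.log X / Real.log (Real.log X))) atTop
        (𝓝 (√(8 * (a 2 - a 0)) + √(8 * (a 2 - a 1)))) := by
  obtain ⟨θ, h0, hup⟩ := JA_upper (n := n) hT hα0 hα
  refine ⟨min θ 1, lt_min h0 one_pos, fun a ha ha0 h02 hθ => ?_⟩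
  have i01 : (0 : Fin (n + 3)) ≤ 1 := Fin.zero_le _
  have h01 : a 0 ≤ a 1 := ha i01
  have h12 : a 1 ≤ a 2 := by
    refine ha ?_
    rw [Fin.le_def]
    show 1 % (n + 3) ≤ 2 % (n + 3)
    rw [Nat.mod_eq_of_lt (by omega), Nat.mod_eq_of_lt (by omega)]
    norm_num
  have hθ1 : a 2 ≤ (1 + θ) * a 0 := by
    refine hθ.le.trans (mul_le_mul_of_nonneg_right ?_ ha0.le)
    linarith [min_le_left θ 1]
  have hθ2 : a 2 < a 0 + a 1 := by
    have : (1 + min θ 1) * a 0 ≤ 2 * a 0 :=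
      mul_le_mul_of_nonneg_right (by linarith [min_le_right θ 1]) ha0.le
    linarith
  have hup' := hup a ha0 h01 h12 h02 hθ1
  have hfin : ∀ᶠ Y : ℝ in atTop, (JA T α a Y).Finite := by
    filter_upwards [hup' 1 one_pos] with Y hY
    exact hY.1
  refine ⟨fun Λ => ?_, ?_⟩
  · obtain ⟨Y, hY1, hY2⟩ := (hfin.and (eventually_ge_atTop Λ)).exists
    exact hY1.subset (JA_mono (fun l => (ha0.trans_le (ha (Fin.zero_le l))).le) hY2)
  · refine limit_of ?_ (by linarith) (fun Y => ((JA T α a Y).ncard : ℝ)) (fun ε hε => ?_)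
      (fun ε hε hε1 => ?_)
    · have : 0 < √(8 * (a 2 - a 0)) := Real.sqrt_pos.2 (by linarith)
      have := Real.sqrt_nonneg (8 * (a 2 - a 1))
      linarith
    · filter_upwards [hup' ε hε] with Y hY
      exact hY.2
    · exact JA_lower hT hα0 hα ha ha0 h02 hθ2 hfin hε hε1

end points

end Pool.Agent.Run7.h151.FN
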