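import Pool.Agent.Run7.h151.FN.UpT
import Pool.Agent.N401.QP_FINJ

/-!
# Translation to points of the projective line, and the lower bounds
-/

set_option autoImplicit false
set_option linter.unusedSectionVars false

namespace Pool.Agent.Run7.h151.FN

open NumberField IsDedekindDomain Finset Filter Topology Module Pool.Agent.H691R3
open Pool.Agent.W223.AK Pool.Agent.N906.KG
open Pool.Agent.N170.KG (pr al_pr rep_eq_of rep_inf ht_rep of_rep off_of pt pt_rep pt_inj fin_pos lv_eq)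
open Pool.Agent.N906.NT (Gs)

section points

variable {K : Type} [Field K] [NumberField K] {q : ℕ}

/-- from finite sets of elements of `K` to sets of points -/
theorem proj_bound (U : Set (Projectivization K (Fin 2 → K))) (N : ℝ)
    (h : ∀ F : Finset K, (∀ x ∈ F, ∃ P ∈ U, P.rep 1 ≠ 0 ∧ x = P.rep 0 / P.rep 1) →
      (F.card : ℝ) ≤ N) : U.Finite ∧ (U.ncard : ℝ) ≤ N + 1 := by
  classical
  have key : ∀ G : Finset (Projectivization K (Fin 2 → K)), (G : Set _) ⊆ U →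
      (G.card : ℝ) ≤ N + 1 := by
    intro G hG
    set U₁ := G.filter (fun p => p.rep 1 ≠ 0) with hU₁
    set U₂ := G.filter (fun p => p.rep 1 = 0) with hU₂
    have hsplit : G.card ≤ U₁.card + U₂.card := by
      have h : G ⊆ U₁ ∪ U₂ := by
        intro p hp
        rw [mem_union, hU₁, hU₂, mem_filter, mem_filter]
        by_cases g1 : p.rep 1 = 0
        · exact Or.inr ⟨hp, g1⟩
        · exact Or.inl ⟨hp, g1⟩
      exact (card_le_card h).trans (card_union_le _ _)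
    have hc2 : (U₂.card : ℝ) ≤ 1 := by
      have h : U₂.card ≤ 1 := by
        rw [card_le_one]
        intro a ha b hb
        exact rep_inf (mem_filter.1 ha).2 (mem_filter.1 hb).2
      exact_mod_cast h
    have hc1 : (U₁.card : ℝ) ≤ N := by
      rw [← card_image_of_injOn (s := U₁) (f := fun p => p.rep 0 / p.rep 1)]
      · refine h _ fun x hx => ?_
        obtain ⟨p, hp, rfl⟩ := mem_image.1 hx
        obtain ⟨g0, g1⟩ := mem_filter.1 hp
        exact ⟨p, hG (mem_coe.2 g0), g1, rfl⟩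
      · intro p hp p' hp' e
        obtain ⟨-, g1⟩ := mem_filter.1 (mem_coe.1 hp)
        obtain ⟨-, g3⟩ := mem_filter.1 (mem_coe.1 hp')
        exact rep_eq_of g1 g3 e
    have hs : (G.card : ℝ) ≤ U₁.card + U₂.card := by exact_mod_cast hsplit
    linarith
  have hfin : U.Finite := by
    by_contra hinf
    obtain ⟨G, hG, hGc⟩ := Set.Infinite.exists_subset_card_eq hinf (⌊N + 1⌋₊ + 1)
    have h1 := key G hG
    rw [hGc] at h1
    have h2 := Nat.lt_floor_add_one (N + 1)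
    push_cast at h1
    linarith
  refine ⟨hfin, ?_⟩
  rw [Set.ncard_eq_toFinset_card _ hfin]
  exact key _ (by rw [Set.Finite.coe_toFinset])

/-- from sets of elements of `K` to sets of points, lower bounds -/
theorem proj_lower {U : Set (Projectivization K (Fin 2 → K))} (hU : U.Finite) (F : Finset K)
    (h : ∀ x ∈ F, pt x ∈ U) : (F.card : ℝ) ≤ U.ncard := by
  classical
  have hsub : ((F.image pt : Finset _) : Set _) ⊆ U := by
    intro P hP
    obtain ⟨p, hp, rfl⟩ := mem_image.1 (mem_coe.1 hP)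
    exact h p hp
  have h5 := Set.ncard_le_ncard hsub hU
  rw [Set.ncard_coe_finset, card_image_of_injective _ pt_inj] at h5
  exact_mod_cast h5

/-- a good set of primes -/
theorem good_set {T : Set (Pr K)} (hT : T.Finite) {α : Fin q → Fin 2 → K} (hq : 1 ≤ q)
    (hA : Al (pr α)) : ∃ S : Finset (Pr K), Gd S (pr α) ∧ T ⊆ ↑S := by
  classical
  obtain ⟨⟨S₁, hS₁⟩, -⟩ := basq_all K q (pr α) hq hA
  refine ⟨S₁ ∪ hT.toFinset, hS₁ _ subset_union_left, fun v hv => ?_⟩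
  rw [coe_union]
  exact Or.inr (mem_coe.2 (hT.mem_toFinset.2 hv))

/-! ### The counting functions -/

/-- the local height of `P` and the point `a` at the prime `v`, relative to `K` -/
noncomputable def lvr (v : HeightOneSpectrum (𝓞 K)) (a : Fin 2 → K)
    (P : Projectivization K (Fin 2 → K)) : ℝ :=
  Real.log (max (FinitePlace.mk v (P.rep 0)) (FinitePlace.mk v (P.rep 1)) *
    max (FinitePlace.mk v (a 0)) (FinitePlace.mk v (a 1)) /
      FinitePlace.mk v (P.rep 0 * a 1 - P.rep 1 * a 0))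

/-- the truncated counting function of one point -/
noncomputable def cnt1 (T : Set (HeightOneSpectrum (𝓞 K))) (a : Fin 2 → K)
    (P : Projectivization K (Fin 2 → K)) : ℝ :=
  ∑ᶠ v ∈ {v : HeightOneSpectrum (𝓞 K) | v ∉ T ∧ 0 < lvr v a P},
    Real.log (Ideal.absNorm v.asIdeal : ℝ)

/-- the truncated counting function of all the points -/
noncomputable def cntD (T : Set (HeightOneSpectrum (𝓞 K))) (α : Fin q → Fin 2 → K)
    (P : Projectivization K (Fin 2 → K)) : ℝ :=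
  ∑ᶠ v ∈ {v : HeightOneSpectrum (𝓞 K) | v ∉ T ∧ 0 < ∑ l, lvr v (α l) P},
    Real.log (Ideal.absNorm v.asIdeal : ℝ)

theorem fs_bounds {U : Set (Pr K)} {B S : Finset (Pr K)} (h1 : ∀ v ∈ B, v ∈ U)
    (h2 : ∀ v ∈ U, v ∉ S → v ∈ B) :
    ∑ v ∈ B, Real.log (Nv v) ≤ ∑ᶠ v ∈ U, Real.log (Ideal.absNorm v.asIdeal : ℝ) ∧
      ∑ᶠ v ∈ U, Real.log (Ideal.absNorm v.asIdeal : ℝ) ≤
        ∑ v ∈ B, Real.log (Nv v) + ∑ v ∈ S, Real.log (Nv v) := by
  classical
  obtain ⟨W, hW⟩ : ∃ W : Finset (Pr K), W = (B ∪ S).filter (fun v => v ∈ U) := ⟨_, rfl⟩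
  have hWU : (W : Set (Pr K)) = U := by
    ext v
    rw [mem_coe, hW, mem_filter, mem_union]
    constructor
    · exact fun h => h.2
    · intro h
      refine ⟨?_, h⟩
      by_cases hv : v ∈ S
      · exact Or.inr hv
      · exact Or.inl (h2 v h hv)
  have e : ∑ᶠ v ∈ U, Real.log (Ideal.absNorm v.asIdeal : ℝ) = ∑ v ∈ W, Real.log (Nv v) := by
    rw [← hWU, finsum_mem_coe_finset]
    rfl
  rw [e]
  constructor
  · refine sum_le_sum_of_subset_of_nonneg ?_ fun v _ _ => (log_Nv_pos v).le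
    intro v hv
    rw [hW, mem_filter, mem_union]
    exact ⟨Or.inl hv, h1 v hv⟩
  · refine (sum_le_sum_of_subset_of_nonneg (t := B ∪ S) ?_ fun v _ _ => (log_Nv_pos v).le).trans ?_
    · rw [hW]; exact filter_subset _ _
    · rw [← sum_union_inter]
      have : 0 ≤ ∑ v ∈ B ∩ S, Real.log (Nv v) := sum_nonneg fun v _ => (log_Nv_pos v).le
      linarith

theorem lvr_eq {S : Finset (Pr K)} {α : Fin q → Fin 2 → K} {P : Projectivization K (Fin 2 → K)}
    (hP : P.rep 1 ≠ 0) {A : Fin q → Idl K} (hA : IsP S (pr α) (P.rep 0 / P.rep 1) A) (l : Fin q)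
    {v : Pr K} (hv : v ∉ S) : lvr v (α l) P = (A l v : ℝ) * Real.log (Nv v) := by
  rw [← hA.2 l v hv]
  have hd : (finrank ℚ K : ℝ) ≠ 0 := fin_pos.ne'
  have h := lv_eq v (α l) hP
  have h2 : lvr v (α l) P = lv v (α l) P * finrank ℚ K := by
    unfold lvr lv
    rw [div_mul_cancel₀ _ hd]
  rw [h2, h]
  rfl

theorem cnt1_bounds {T : Set (Pr K)} {S : Finset (Pr K)} (hTS : T ⊆ ↑S) {α : Fin q → Fin 2 → K}
    {P : Projectivization K (Fin 2 → K)} (hP : P.rep 1 ≠ 0) {A : Fin q → Idl K}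
    (hA : IsP S (pr α) (P.rep 0 / P.rep 1) A) (l : Fin q) :
    rl (A l) ≤ cnt1 T (α l) P ∧ cnt1 T (α l) P ≤ rl (A l) + ∑ v ∈ S, Real.log (Nv v) := by
  refine fs_bounds (U := {v | v ∉ T ∧ 0 < lvr v (α l) P}) ?_ ?_
  · intro v hv
    have h1 := Finsupp.mem_support_iff.1 hv
    have hvS : v ∉ S := fun h => h1 (hA.1 l v h)
    refine ⟨fun h => hvS (hTS h), ?_⟩
    rw [lvr_eq hP hA l hvS]
    have : 0 < A l v := Nat.pos_of_ne_zero h1
    have h3 : (0 : ℝ) < (A l v : ℝ) := by exact_mod_cast this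
    exact mul_pos h3 (log_Nv_pos v)
  · rintro v ⟨-, h2⟩ hvS
    rw [lvr_eq hP hA l hvS] at h2
    rw [Finsupp.mem_support_iff]
    intro h
    rw [h, Nat.cast_zero, zero_mul] at h2
    exact lt_irrefl _ h2

theorem cntD_bounds {T : Set (Pr K)} {S : Finset (Pr K)} (hTS : T ⊆ ↑S) {α : Fin q → Fin 2 → K}
    {P : Projectivization K (Fin 2 → K)} (hP : P.rep 1 ≠ 0) {A : Fin q → Idl K}
    (hA : IsP S (pr α) (P.rep 0 / P.rep 1) A) :
    tr A ≤ cntD T α P ∧ cntD T α P ≤ tr A + ∑ v ∈ S, Real.log (Nv v) := by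
  classical
  have hsp : ∀ v, v ∈ sp A ↔ ∃ l, A l v ≠ 0 := by
    intro v
    unfold sp
    simp only [Finset.mem_biUnion, Finset.mem_univ, true_and, Finsupp.mem_support_iff]
  have hsum : ∀ v, v ∉ S → ∑ l, lvr v (α l) P = (∑ l, (A l v : ℝ)) * Real.log (Nv v) := by
    intro v hv
    rw [sum_mul]
    exact sum_congr rfl fun l _ => lvr_eq hP hA l hv
  refine fs_bounds (U := {v | v ∉ T ∧ 0 < ∑ l, lvr v (α l) P}) ?_ ?_
  · intro v hv
    obtain ⟨l, hl⟩ := (hsp v).1 hv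
    have hvS : v ∉ S := fun h => hl (hA.1 l v h)
    refine ⟨fun h => hvS (hTS h), ?_⟩
    rw [hsum v hvS]
    have : 0 < A l v := Nat.pos_of_ne_zero hl
    have h3 : (0 : ℝ) < (A l v : ℝ) := by exact_mod_cast this
    have h4 : (A l v : ℝ) ≤ ∑ l, (A l v : ℝ) :=
      single_le_sum (f := fun l => (A l v : ℝ)) (fun _ _ => Nat.cast_nonneg _) (mem_univ l)
    exact mul_pos (h3.trans_le h4) (log_Nv_pos v)
  · rintro v ⟨-, h2⟩ hvS
    rw [hsum v hvS] at h2
    rw [hsp]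
    by_contra hcon
    push Not at hcon
    rw [sum_eq_zero fun l _ => by rw [hcon l, Nat.cast_zero], zero_mul] at h2
    exact lt_irrefl _ h2

/-! ### The sets -/

/-- the points with separately bounded truncated counting functions -/
def JA (T : Set (Pr K)) (α : Fin q → Fin 2 → K) (a : Fin q → ℝ) (Λ : ℝ) :
    Set (Projectivization K (Fin 2 → K)) :=
  {P | Off1 α P ∧ ∀ l, cnt1 T (α l) P ≤ a l * Λ}

/-- the exceptions, ordered by the truncated counting function -/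
def PT (T : Set (Pr K)) (α : Fin q → Fin 2 → K) (κ c Λ : ℝ) :
    Set (Projectivization K (Fin 2 → K)) :=
  {P | Off1 α P ∧ cntD T α P ≤ Λ ∧ cntD T α P ≤ ((q : ℝ) - κ) * Height.logHeight P.rep + c}

theorem lh_eq (P : Projectivization K (Fin 2 → K)) :
    Height.logHeight P.rep = hr (aff (P.rep 0 / P.rep 1)) := ht_rep _

/-- the upper bound for the exceptions -/
theorem PT_upper {T : Set (Pr K)} (hT : T.Finite) (hq : 3 ≤ q) {α : Fin q → Fin 2 → K}
    (hα0 : ∀ i, α i ≠ 0) (hα : ∀ i j, i ≠ j → α i 0 * α j 1 - α i 1 * α j 0 ≠ 0) :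
    ∃ κ₀ : ℝ, 0 < κ₀ ∧ κ₀ ≤ 1 / 4 ∧ ∀ κ : ℝ, 0 < κ → κ ≤ κ₀ → ∀ c ε : ℝ, 0 < ε →
      ∀ᶠ Y : ℝ in atTop, (PT T α κ c Y).Finite ∧
        ((PT T α κ c Y).ncard : ℝ) ≤
          Real.exp ((2 - κ) / ((q : ℝ) - κ) * Y +
            (√(8 * q * (κ / ((q : ℝ) - κ))) + ε) * √(Y / Real.log Y)) + 1 := by
  classical
  have hA := al_pr hα0 hα
  obtain ⟨S, hG, hTS⟩ := good_set hT (by omega) hA
  obtain ⟨κ₀, h1, h2, h3⟩ := upperT hq (pr α) S hA hG
  refine ⟨κ₀, h1, h2, fun κ hκ0 hκ c ε hε => ?_⟩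
  filter_upwards [h3 κ hκ0 hκ ε |c| hε (abs_nonneg c)] with Y hY
  refine proj_bound _ _ fun F hF => hY F fun x hx => ?_
  obtain ⟨P, ⟨m1, m2, m3⟩, n1, rfl⟩ := hF x hx
  have o1 := of_rep n1 m1
  obtain ⟨A, hAP⟩ := Pool.Agent.N954.KG.isP_exists hA S o1
  have htr : tr A ≤ cntD T α P := (cntD_bounds hTS n1 hAP).1
  rw [lh_eq P] at m3
  exact ⟨o1, A, hAP, by linarith [abs_nonneg c], by linarith [le_abs_self c]⟩

/-- the lower bound for the exceptions -/
theorem PT_lower {T : Set (Pr K)} (hT : T.Finite) (hq : 3 ≤ q) {α : Fin q → Fin 2 → K}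
    (hα0 : ∀ i, α i ≠ 0) (hα : ∀ i j, i ≠ j → α i 0 * α j 1 - α i 1 * α j 0 ≠ 0)
    {κ : ℝ} (hκ0 : 0 < κ) (hκ1 : κ < 1) (c : ℝ)
    (hfin : ∀ᶠ Y : ℝ in atTop, (PT T α κ c Y).Finite) {ε : ℝ} (hε : 0 < ε)
    (hε1 : ε < 1) : ∀ᶠ Y : ℝ in atTop,
      Real.exp ((2 - κ) / ((q : ℝ) - κ) * Y +
        (1 - ε) * (√(8 * q * (κ / ((q : ℝ) - κ))) * √(Y / Real.log Y))) ≤
          ((PT T α κ c Y).ncard : ℝ) := by
  classical
  have hqR : (3 : ℝ) ≤ q := by exact_mod_cast hq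
  have hq0 : (0 : ℝ) < q := by linarith
  have hqκ : 0 < (q : ℝ) - κ := by linarith
  have hA := al_pr hα0 hα
  obtain ⟨S, hG, hTS⟩ := good_set hT (by omega) hA
  obtain ⟨i, hi⟩ : ∃ i : ℝ, i = 1 / ((q : ℝ) - κ) := ⟨_, rfl⟩
  have hi0 : 0 < i := by rw [hi]; positivity
  have hi1 : i ≤ 1 := by
    rw [hi, div_le_one hqκ]; linarith
  have hC₀ : 0 ≤ ∑ v ∈ S, Real.log (Nv v) + |c| :=
    add_nonneg (sum_nonneg fun v _ => (log_Nv_pos v).le) (by positivity)
  have hsumκ : ∑ _l : Fin q, κ / (q : ℝ) = κ := by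
    rw [Finset.sum_const, Finset.card_univ, Fintype.card_fin, nsmul_eq_mul]
    field_simp
  obtain ⟨X₀, hX₀, hlo⟩ := loj_all K q (pr α) S (fun _ => κ / q) ε
    (∑ v ∈ S, Real.log (Nv v) + |c|) (by omega) hA hG (fun _ => by positivity)
    (by rw [hsumκ]; exact hκ0) (by rw [hsumκ]; exact hκ1) hε hε1 hC₀
  filter_upwards [hfin, eventually_ge_atTop (X₀ / i), eventually_gt_atTop (1 / i),
    eventually_gt_atTop (1 : ℝ)] with Y hYf hYX hYi hY1
  rw [div_le_iff₀ hi0] at hYX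
  rw [div_lt_iff₀ hi0] at hYi
  obtain ⟨F, hF, hcard⟩ := hlo (Y * i) hYX
  have hY0 : 0 < Y := by linarith
  refine le_trans ?_ (hcard.trans (proj_lower hYf F fun x hx => ?_))
  · refine Real.exp_le_exp.2 ?_
    rw [hsumκ, Finset.sum_const, Finset.card_univ, Fintype.card_fin, nsmul_eq_mul]
    have e1 : (2 - κ) / ((q : ℝ) - κ) * Y = (2 - κ) * (Y * i) := by rw [hi]; ring
    have hlog : 0 < Real.log (Y * i) := Real.log_pos hYi
    have hlog2 : Real.log (Y * i) ≤ Real.log Y :=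
      Real.log_le_log (by linarith) (by nlinarith)
    have e2 : √(8 * q * (κ / ((q : ℝ) - κ))) * √(Y / Real.log Y) ≤
        (q : ℝ) * √(8 * (κ / q) * (Y * i) / Real.log (Y * i)) := by
      rw [← Real.sqrt_mul (by positivity)]
      have e3 : (q : ℝ) * √(8 * (κ / q) * (Y * i) / Real.log (Y * i)) =
          √((q : ℝ) ^ 2 * (8 * (κ / q) * (Y * i) / Real.log (Y * i))) := by
        rw [Real.sqrt_mul (by positivity), Real.sqrt_sq hq0.le]
      rw [e3]
      refine Real.sqrt_le_sqrt ?_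
      have e4 : (q : ℝ) ^ 2 * (8 * (κ / q) * (Y * i) / Real.log (Y * i)) =
          8 * q * (κ * i) * (Y / Real.log (Y * i)) := by
        field_simp
      have e5 : κ / ((q : ℝ) - κ) = κ * i := by rw [hi]; ring
      rw [e4, e5]
      refine mul_le_mul_of_nonneg_left ?_ (by positivity)
      exact div_le_div_of_nonneg_left hY0.le hlog hlog2
    rw [e1]
    have := mul_le_mul_of_nonneg_left e2 (by linarith : 0 ≤ 1 - ε)
    linarith
  · obtain ⟨o1, k1, -, A, hAP, htr⟩ := hF x hx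
    obtain ⟨n1, e1⟩ := pt_rep x
    have f1 : Off1 α (pt x) := off_of n1 (by rw [e1]; exact o1)
    have hhx : Height.logHeight (pt x).rep = hr (aff x) := by rw [lh_eq, e1]
    have hqq : ∑ l, rl (A l) ≤ ((q : ℝ) - κ) * hr (aff x) -
        (∑ v ∈ S, Real.log (Nv v) + |c|) := by
      refine (sum_le_sum fun l _ => show rl (A l) ≤ (1 - κ / q) * hr (aff x) -
        (∑ v ∈ S, Real.log (Nv v) + |c|) by linarith [htr l]).trans ?_
      rw [Finset.sum_const, Finset.card_univ, Fintype.card_fin, nsmul_eq_mul]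
      have h8 : (q : ℝ) * ((1 - κ / q) * hr (aff x) - (∑ v ∈ S, Real.log (Nv v) + |c|)) =
          ((q : ℝ) - κ) * hr (aff x) - q * (∑ v ∈ S, Real.log (Nv v) + |c|) := by
        field_simp
      rw [h8]
      nlinarith
    have hsum : cntD T α (pt x) ≤ ((q : ℝ) - κ) * hr (aff x) - |c| := by
      have h6 := (cntD_bounds hTS n1 (A := A) (by rw [e1]; exact hAP)).2
      have h7 := Pool.Agent.N575.QP.tr_le_rl A
      linarith
    refine ⟨f1, ?_, ?_⟩
    · have h10 : ((q : ℝ) - κ) * hr (aff x) ≤ ((q : ℝ) - κ) * (Y * i) :=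
        mul_le_mul_of_nonneg_left k1 hqκ.le
      have h11 : ((q : ℝ) - κ) * (Y * i) = Y := by rw [hi]; field_simp
      linarith [abs_nonneg c]
    · rw [hhx]
      linarith [neg_abs_le c]

/-- the upper bound for the separate counting functions -/
theorem JA_upper {T : Set (Pr K)} (hT : T.Finite) {n : ℕ} {α : Fin (n + 3) → Fin 2 → K}
    (hα0 : ∀ i, α i ≠ 0) (hα : ∀ i j, i ≠ j → α i 0 * α j 1 - α i 1 * α j 0 ≠ 0) :
    ∃ θ : ℝ, 0 < θ ∧ ∀ a : Fin (n + 3) → ℝ, 0 < a 0 → a 0 ≤ a 1 → a 1 ≤ a 2 → a 0 < a 2 →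
      a 2 ≤ (1 + θ) * a 0 → ∀ ε : ℝ, 0 < ε →
      ∀ᶠ Y : ℝ in atTop, (JA T α a Y).Finite ∧
        ((JA T α a Y).ncard : ℝ) ≤
          Real.exp ((a 0 + a 1) * Y +
            (√(8 * (a 2 - a 0)) + √(8 * (a 2 - a 1)) + ε) * √(Y / Real.log Y)) + 1 := by
  classical
  obtain ⟨σ, hσ⟩ : ∃ σ : Fin 3 → Fin (n + 3), σ = Fin.castLE (by omega) := ⟨_, rfl⟩
  have hσi : Function.Injective σ := by
    rw [hσ]
    exact Fin.castLE_injective _
  have s0 : σ 0 = 0 := by rw [hσ]; rfl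
  have s1 : σ 1 = 1 := by
    rw [hσ]
    refine Fin.ext ?_
    rw [Fin.val_castLE]
    show 1 = 1 % (n + 3)
    rw [Nat.mod_eq_of_lt (by omega)]
  have s2 : σ 2 = 2 := by
    rw [hσ]
    refine Fin.ext ?_
    rw [Fin.val_castLE]
    show 2 = 2 % (n + 3)
    rw [Nat.mod_eq_of_lt (by omega)]
  have hα0' : ∀ i, (fun l => α (σ l)) i ≠ 0 := fun i => hα0 _
  have hα' : ∀ i j, i ≠ j → (fun l => α (σ l)) i 0 * (fun l => α (σ l)) j 1 -
      (fun l => α (σ l)) i 1 * (fun l => α (σ l)) j 0 ≠ 0 := fun i j hij =>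
    hα _ _ fun h => hij (hσi h)
  have hA := al_pr hα0' hα'
  obtain ⟨S, hG, hTS⟩ := good_set hT (by norm_num) hA
  obtain ⟨θ, hθ, h3⟩ := upper3 (pr fun l => α (σ l)) S hA hG
  refine ⟨θ, hθ, fun a b0 b01 b12 b02 bθ ε hε => ?_⟩
  have h4 := h3 (fun l => a (σ l)) (by rw [s0]; exact b0) (by rw [s0, s1]; exact b01)
    (by rw [s1, s2]; exact b12) (by rw [s0, s2]; exact b02) (by rw [s0, s2]; exact bθ) ε 0 hε le_rfl
  simp only [s0, s1, s2] at h4
  filter_upwards [h4] with Y hY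
  refine proj_bound _ _ fun F hF => hY F fun x hx => ?_
  obtain ⟨P, ⟨m1, m2⟩, n1, rfl⟩ := hF x hx
  have m1' : Off1 (fun l => α (σ l)) P := fun l => m1 (σ l)
  have o1 := of_rep n1 m1'
  obtain ⟨A, hAP⟩ := Pool.Agent.N954.KG.isP_exists hA S o1
  refine ⟨o1, A, hAP, fun l => ?_⟩
  have h5 := (cnt1_bounds (α := fun l => α (σ l)) hTS n1 hAP l).1
  have h6 := m2 (σ l)
  linarith

theorem log_le' {c : ℝ} (hc : 0 < c) {ε : ℝ} (hε : 0 < ε) : ∀ᶠ Y : ℝ in atTop,
    Real.log (c * Y) ≤ (1 + ε) * Real.log Y ∧ 1 ≤ Real.log Y ∧ 1 ≤ Real.log (c * Y) := by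
  have h : Tendsto (fun Y : ℝ => ε * Real.log Y) atTop atTop :=
    Real.tendsto_log_atTop.const_mul_atTop hε
  filter_upwards [eventually_gt_atTop (1 : ℝ), h.eventually_ge_atTop (Real.log c),
    Real.tendsto_log_atTop.eventually_ge_atTop (1 : ℝ),
    Real.tendsto_log_atTop.eventually_ge_atTop (1 - Real.log c)]
    with Y h1 h2 h3 h4
  rw [Real.log_mul hc.ne' (by linarith)]
  exact ⟨by linarith, h3, by linarith⟩

/-- the lower bound for the separate counting functions -/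
theorem JA_lower {T : Set (Pr K)} (hT : T.Finite) {n : ℕ} {α : Fin (n + 3) → Fin 2 → K}
    (hα0 : ∀ i, α i ≠ 0) (hα : ∀ i j, i ≠ j → α i 0 * α j 1 - α i 1 * α j 0 ≠ 0)
    {a : Fin (n + 3) → ℝ} (ha : Monotone a) (ha0 : 0 < a 0) (h02 : a 0 < a 2)
    (hsum : a 2 < a 0 + a 1)
    (hfin : ∀ᶠ Y : ℝ in atTop, (JA T α a Y).Finite) {ε : ℝ} (hε : 0 < ε)
    (hε1 : ε < 1) : ∀ᶠ Y : ℝ in atTop,
      Real.exp ((a 0 + a 1) * Y +
        (1 - ε) * ((√(8 * (a 2 - a 0)) + √(8 * (a 2 - a 1))) * √(Y / Real.log Y))) ≤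
          ((JA T α a Y).ncard : ℝ) := by
  classical
  have hA := al_pr hα0 hα
  obtain ⟨S, hG, hTS⟩ := good_set hT (by omega) hA
  have i01 : (0 : Fin (n + 3)) ≤ 1 := Fin.zero_le _
  have h01 : a 0 ≤ a 1 := ha i01
  have h12 : a 1 ≤ a 2 := by
    refine ha ?_
    rw [Fin.le_def]
    show 1 % (n + 3) ≤ 2 % (n + 3)
    rw [Nat.mod_eq_of_lt (by omega), Nat.mod_eq_of_lt (by omega)]
    norm_num
  have ha2 : 0 < a 2 := by linarith
  obtain ⟨κ, hκ⟩ : ∃ κ : Fin (n + 3) → ℝ, κ = fun l => kp (a l) 1 (a 2) := ⟨_, rfl⟩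
  have hκl : ∀ l, κ l = max 0 (1 - a l / a 2) := by
    intro l
    rw [hκ]
    show max 0 (1 - a l * 1 / a 2) = _
    rw [mul_one]
  have hκ0 : ∀ l, 0 ≤ κ l := fun l => by rw [hκl]; exact le_max_left _ _
  have k0 : κ 0 = 1 - a 0 / a 2 := by
    rw [hκl, max_eq_right]
    have : a 0 / a 2 ≤ 1 := (div_le_one ha2).2 h02.le
    linarith
  have k1 : κ 1 = 1 - a 1 / a 2 := by
    rw [hκl, max_eq_right]
    have : a 1 / a 2 ≤ 1 := (div_le_one ha2).2 h12
    linarith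
  have k2 : ∀ i : Fin (n + 1), κ i.succ.succ = 0 := by
    intro i
    rw [hκl, max_eq_left]
    have h1 : a 2 ≤ a i.succ.succ := by
      refine ha ?_
      rw [Fin.le_def]
      show 2 % (n + 3) ≤ _
      rw [Nat.mod_eq_of_lt (by omega), Fin.val_succ, Fin.val_succ]
      omega
    have : 1 ≤ a i.succ.succ / a 2 := (one_le_div ha2).2 h1
    linarith
  have hsuc : (Fin.succ (0 : Fin (n + 2)) : Fin (n + 3)) = 1 := rfl
  have hsumκ : ∑ l, κ l = κ 0 + κ 1 := by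
    rw [Fin.sum_univ_succ, Fin.sum_univ_succ, hsuc, Finset.sum_eq_zero fun i _ => k2 i, add_zero]
  have hS0 : 0 < ∑ l, κ l := by
    rw [hsumκ, k0, k1]
    have h1 : a 0 / a 2 < 1 := (div_lt_one ha2).2 h02
    have h2 : a 1 / a 2 ≤ 1 := (div_le_one ha2).2 h12
    linarith
  have hS1 : ∑ l, κ l < 1 := by
    rw [hsumκ, k0, k1]
    have : 1 < a 0 / a 2 + a 1 / a 2 := by
      rw [← add_div, lt_div_iff₀ ha2]
      linarith
    linarith
  obtain ⟨ε₁, hε₁⟩ : ∃ ε₁ : ℝ, ε₁ = ε / 2 := ⟨_, rfl⟩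
  have he0 : 0 < ε₁ := by rw [hε₁]; linarith
  have he1 : ε₁ < 1 := by rw [hε₁]; linarith
  obtain ⟨X₀, hX₀, hlo⟩ := loj_all K (n + 3) (pr α) S κ ε₁ (∑ v ∈ S, Real.log (Nv v)) (by omega)
    hA hG hκ0 hS0 hS1 he0 he1 (sum_nonneg fun v _ => (log_Nv_pos v).le)
  filter_upwards [hfin, eventually_ge_atTop (X₀ / a 2), eventually_gt_atTop (1 : ℝ),
    log_le' ha2 he0] with Y hYf hYX hY1 ⟨hl1, hl2, hl3⟩
  rw [div_le_iff₀ ha2] at hYX
  obtain ⟨F, hF, hcard⟩ := hlo (a 2 * Y) (by linarith)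
  have hY0 : 0 < Y := by linarith
  refine le_trans ?_ (hcard.trans (proj_lower hYf F fun x hx => ?_))
  · refine Real.exp_le_exp.2 ?_
    have e1 : (2 - ∑ l, κ l) * (a 2 * Y) = (a 0 + a 1) * Y := by
      rw [hsumκ, k0, k1]
      field_simp
      ring
    have hterm : ∀ l, √(8 * (κ l * a 2)) * √(Y / Real.log Y) ≤
        (1 + ε₁) * √(8 * κ l * (a 2 * Y) / Real.log (a 2 * Y)) := by
      intro l
      have hc : 0 ≤ 8 * (κ l * a 2) := by
        have := mul_nonneg (hκ0 l) ha2.le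
        linarith
      have h5 : √(8 * (κ l * a 2) * Y / Real.log Y) ≤
          (1 + ε₁) * √(8 * (κ l * a 2) * Y / Real.log (a 2 * Y)) := by
        have h6 : 8 * (κ l * a 2) * Y / Real.log Y ≤
            (1 + ε₁) ^ 2 * (8 * (κ l * a 2) * Y / Real.log (a 2 * Y)) := by
          have h7 : 8 * (κ l * a 2) * Y / Real.log Y ≤
              (1 + ε₁) * (8 * (κ l * a 2) * Y / Real.log (a 2 * Y)) := by
            rw [← mul_div_assoc, div_le_div_iff₀ (by linarith) (by linarith)]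
            have h8 : 0 ≤ 8 * (κ l * a 2) * Y := mul_nonneg hc hY0.le
            calc 8 * (κ l * a 2) * Y * Real.log (a 2 * Y) ≤
                8 * (κ l * a 2) * Y * ((1 + ε₁) * Real.log Y) :=
                  mul_le_mul_of_nonneg_left hl1 h8
              _ = _ := by ring
          refine h7.trans ?_
          have h9 : 0 ≤ 8 * (κ l * a 2) * Y / Real.log (a 2 * Y) :=
            div_nonneg (mul_nonneg hc hY0.le) (by linarith)
          refine mul_le_mul_of_nonneg_right ?_ h9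
          nlinarith
        calc √(8 * (κ l * a 2) * Y / Real.log Y) ≤ _ := Real.sqrt_le_sqrt h6
          _ = _ := by rw [Real.sqrt_mul (sq_nonneg _), Real.sqrt_sq (by linarith)]
      rw [mul_div_assoc (8 * (κ l * a 2)) Y (Real.log Y), Real.sqrt_mul hc] at h5
      have e8 : 8 * κ l * (a 2 * Y) = 8 * (κ l * a 2) * Y := by ring
      rw [e8]
      exact h5
    have t0 := hterm 0
    have t1 := hterm 1
    have e9 : κ 0 * a 2 = a 2 - a 0 := by rw [k0]; field_simp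
    have e10 : κ 1 * a 2 = a 2 - a 1 := by rw [k1]; field_simp
    rw [e9] at t0
    rw [e10] at t1
    have e11 : ∑ l, √(8 * κ l * (a 2 * Y) / Real.log (a 2 * Y)) =
        √(8 * κ 0 * (a 2 * Y) / Real.log (a 2 * Y)) +
          √(8 * κ 1 * (a 2 * Y) / Real.log (a 2 * Y)) := by
      rw [Fin.sum_univ_succ, Fin.sum_univ_succ, hsuc, Finset.sum_eq_zero fun i _ => ?_, add_zero]
      rw [k2 i, mul_zero, zero_mul, zero_div, Real.sqrt_zero]
    rw [e1, e11]
    obtain ⟨u, hu⟩ : ∃ u : ℝ, u = √(8 * κ 0 * (a 2 * Y) / Real.log (a 2 * Y)) +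
          √(8 * κ 1 * (a 2 * Y) / Real.log (a 2 * Y)) := ⟨_, rfl⟩
    have hu0 : 0 ≤ u := by rw [hu]; positivity
    have h12' : (√(8 * (a 2 - a 0)) + √(8 * (a 2 - a 1))) * √(Y / Real.log Y) ≤ (1 + ε₁) * u := by
      rw [hu]; linarith
    rw [← hu]
    have h13 := mul_le_mul_of_nonneg_left h12' (by linarith : 0 ≤ 1 - ε)
    have h14 : (1 - ε) * ((1 + ε₁) * u) ≤ (1 - ε₁) * u := by
      have : (1 - ε) * (1 + ε₁) ≤ 1 - ε₁ := by rw [hε₁]; nlinarith
      calc (1 - ε) * ((1 + ε₁) * u) = ((1 - ε) * (1 + ε₁)) * u := by ring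
        _ ≤ _ := mul_le_mul_of_nonneg_right this hu0
    linarith
  · obtain ⟨o1, k3, -, A, hAP, htr⟩ := hF x hx
    obtain ⟨n1, e1⟩ := pt_rep x
    have f1 : Off1 α (pt x) := off_of n1 (by rw [e1]; exact o1)
    refine ⟨f1, fun l => ?_⟩
    have h6 := (cnt1_bounds (A := A) hTS n1 (by rw [e1]; exact hAP) l).2
    have h7 := htr l
    have h8 : κ l ≤ 1 := by
      rw [hκl]
      refine max_le zero_le_one ?_
      have : 0 < a l := ha0.trans_le (ha (Fin.zero_le l))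
      have : 0 < a l / a 2 := by positivity
      linarith
    have h9 : (1 - κ l) * hr (aff x) ≤ (1 - κ l) * (a 2 * Y) :=
      mul_le_mul_of_nonneg_left k3 (by linarith)
    have h10 : (1 - κ l) * a 2 ≤ a l := by
      have h11 : 1 - a l / a 2 ≤ κ l := by rw [hκl]; exact le_max_right _ _
      have h12' : 1 - κ l ≤ a l / a 2 := by linarith
      have := mul_le_mul_of_nonneg_right h12' ha2.le
      rwa [div_mul_cancel₀ _ ha2.ne'] at this
    have h11 : (1 - κ l) * (a 2 * Y) ≤ a l * Y := by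
      have := mul_le_mul_of_nonneg_right h10 hY0.le
      linarith
    linarith

end points

/-! ### The limit -/

theorem limit_of {B E : ℝ} (hB : 0 < B) (hE : 0 < E) (N : ℝ → ℝ)
    (hU : ∀ ε : ℝ, 0 < ε → ∀ᶠ Y : ℝ in atTop,
      N Y ≤ Real.exp (E * Y + (B + ε) * √(Y / Real.log Y)) + 1)
    (hL : ∀ ε : ℝ, 0 < ε → ε < 1 → ∀ᶠ Y : ℝ in atTop,
      Real.exp (E * Y + (1 - ε) * (B * √(Y / Real.log Y))) ≤ N Y) :
    Tendsto (fun X : ℝ => (Real.log (N (Real.log X)) - E * Real.log X) /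
      √(Real.log X / Real.log (Real.log X))) atTop (𝓝 B) := by
  have h := Pool.Agent.N401.QP.final_limitJ hB.le one_pos hE N ?_ ?_
  · have h5 := h.comp Real.tendsto_log_atTop
    have e1 : B * (1 * 1) ^ ((1 : ℝ) / 2) = B := by rw [one_mul, Real.one_rpow, mul_one]
    rw [e1] at h5
    refine h5.congr fun X => ?_
    simp only [Function.comp_apply, Gs]
    rw [← Real.sqrt_eq_rpow, one_mul]
  · intro ε hε
    obtain ⟨Y₀, hY₀⟩ := eventually_atTop.1 (hU (ε * B) (by positivity))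
    refine ⟨max Y₀ 2, by linarith [le_max_right Y₀ 2], fun L hL' => ?_⟩
    rw [one_mul] at hL' ⊢
    have h1 := hY₀ L ((le_max_left _ _).trans hL')
    rw [one_mul, ← Real.sqrt_eq_rpow]
    have e : (B + ε * B) * √(L / Real.log L) = (1 + ε) * (B * √(L / Real.log L)) := by ring
    rw [← e]
    exact h1
  · intro ε hε hε1
    obtain ⟨Y₀, hY₀⟩ := eventually_atTop.1 (hL ε hε hε1)
    refine ⟨max Y₀ 2, by linarith [le_max_right Y₀ 2], fun L hL' => ?_⟩
    rw [one_mul] at hL' ⊢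
    have h1 := hY₀ L ((le_max_left _ _).trans hL')
    rw [one_mul, ← Real.sqrt_eq_rpow]
    exact h1

end Pool.Agent.Run7.h151.FN
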