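import Pool.Agent.Run7.h585.LD.Unif
import Pool.Agent.R365.SH.All
import Pool.Agent.N906.QP.All
import Pool.Agent.Run7.h151.FN.Elem

/-!
# The points with small separate counting functions: the upper bound for three points

`upju` (uniform joint upper bound) is by helper585 (`Pool/Agent/Run7/h585/LD/Unif.lean`).
-/

set_option autoImplicit false
set_option linter.unusedSectionVars false

namespace Pool.Agent.Run7.h151.FN

open NumberField IsDedekindDomain Finset Filter Topology Pool.Agent.H691R3 Pool.Agent.W223.AK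
open Pool.Agent.N906.KG

section

variable {K : Type} [Field K] [NumberField K] {q : ℕ}

theorem rl_le_len (a : Idl K) : rl a ≤ len a := by
  have h := Pool.Agent.N575.QP.gain_eq a (Finset.Subset.refl a.support)
  have h2 : 0 ≤ ∑ v ∈ a.support, ((a v - 1 : ℕ) : ℝ) * Real.log (Nv v) :=
    Finset.sum_nonneg fun v _ => mul_nonneg (Nat.cast_nonneg _) (Pool.Agent.N575.QP.lg v).le
  linarith

theorem rl_le_hr {α : Fin q → K × K} (hα : Al α) (S : Finset (Pr K)) :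
    ∃ C : ℝ, 0 ≤ C ∧ ∀ (x : K) (P : Fin q → Idl K), Of α x → IsP S α x P →
      ∀ l, rl (P l) ≤ hr (aff x) + C := by
  refine ⟨∑ l, |hr (α l)| + ∑ v ∈ Spl S, loss v, ?_, ?_⟩
  · exact add_nonneg (Finset.sum_nonneg fun _ _ => abs_nonneg _)
      (Finset.sum_nonneg fun v _ => loss_nonneg v)
  · intro x P hx hP l
    have h1 := Pool.Agent.N954.KG.sum_formula hα hx hP l
    have h2 : -(∑ v ∈ Spl S, loss v) ≤ ∑ v ∈ Spl S, lam v (aff x) (α l) := by
      rw [← Finset.sum_neg_distrib]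
      exact Finset.sum_le_sum fun v _ =>
        lam_ge v (aff_ne_zero x) (hα.1 l) (Pool.Agent.N954.KG.of_wedge hx l)
    have h3 : |hr (α l)| ≤ ∑ l, |hr (α l)| :=
      Finset.single_le_sum (f := fun l => |hr (α l)|) (fun _ _ => abs_nonneg _) (mem_univ l)
    have h4 := le_abs_self (hr (α l))
    have h5 := rl_le_len (P l)
    linarith

theorem ntc_tr {α : Fin q → K × K} (hα : Al α) {S : Finset (Pr K)} (hS : Gd S α) {x : K}
    (hx : Of α x) {P : Fin q → Idl K} (hP : IsP S α x P) :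
    NTc (↑S : Set (Pr K)) α x = tr P :=
  Pool.Agent.N654.QP.ntc_eq hP fun _ _ h => Pool.Agent.N954.KG.cop_of hα hS hx hP h

/-- the three bounds for the separate radicals in a window -/
theorem kp_radical {a Y m h r C₀ C₁ : ℝ} (hC₀ : 0 ≤ C₀) (hC₁ : 0 ≤ C₁) (hm : 0 < m)
    (hm1 : m - 1 ≤ h) (hY : 0 ≤ a * Y) (h1 : r ≤ a * Y + C₀) (h2 : r ≤ h + C₁) :
    r ≤ (1 - kp a Y m) * h + (C₀ + C₁ + 1) := by
  unfold kp
  rcases le_total (1 - a * Y / m) 0 with h3 | h3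
  · rw [max_eq_left h3, sub_zero, one_mul]
    linarith
  · rw [max_eq_right h3]
    have h4 : a * Y / m ≤ 1 := by linarith
    have h5 : 0 ≤ a * Y / m := div_nonneg hY hm.le
    have h6 : a * Y / m * (m - 1) ≤ a * Y / m * h := mul_le_mul_of_nonneg_left hm1 h5
    have h7 : a * Y / m * (m - 1) = a * Y - a * Y / m := by
      field_simp
    have h8 : (1 - (1 - a * Y / m)) * h = a * Y / m * h := by ring
    rw [h8]
    linarith

theorem kp_le {a Y m n : ℝ} (hm : 0 < m) (hmn : m ≤ n) (hY : 0 ≤ a * Y) (hn : a * Y ≤ n) :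
    kp a Y m ≤ 1 - a * Y / n := by
  have hn0 : 0 < n := by linarith
  unfold kp
  refine max_le ?_ ?_
  · have : a * Y / n ≤ 1 := (div_le_one hn0).2 hn
    linarith
  · have : a * Y / n ≤ a * Y / m := div_le_div_of_nonneg_left hY hm hmn
    linarith

/-- the points of small height -/
theorem small_part {α : Fin q → K × K} {S : Finset (Pr K)} {C₁ X₀ : ℝ} (hX₀ : 1 < X₀)
    (hrl : ∀ (x : K) (P : Fin q → Idl K), Of α x → IsP S α x P → ∀ l, rl (P l) ≤ hr (aff x) + C₁)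
    (κ₁ ε δ C₀ : ℝ) (hε : 0 < ε) (hε1 : ε ≤ 1) (hC₀ : C₁ ≤ C₀) (hκ : 0 ≤ κ₁ - δ)
    (hup : ∀ X : ℝ, X₀ ≤ X → ∀ κ : Fin q → ℝ, (∀ l, 0 ≤ κ l) →
      ∑ l, κ l ≤ κ₁ - δ → ∀ F : Finset K,
      (∀ x ∈ F, Of α x ∧ hr (aff x) ≤ X ∧
        ∃ P, IsP S α x P ∧ ∀ l, rl (P l) ≤ (1 - κ l) * hr (aff x) + C₀) →
      (F.card : ℝ) ≤ Real.exp ((2 - ∑ l, κ l) * X + ∑ l, √(8 * κ l * X / Real.log X) +
        ε * √(X / Real.log X)))
    {X : ℝ} (hX : X₀ ≤ X) (hX3 : 3 ≤ X) (F : Finset K)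
    (hF : ∀ x ∈ F, Of α x ∧ hr (aff x) ≤ X ∧ ∃ P, IsP S α x P) :
    (F.card : ℝ) ≤ Real.exp (3 * X) := by
  refine (hup X hX (fun _ => 0) (fun _ => le_rfl) (by rw [Finset.sum_const_zero]; exact hκ) F
    fun x hx => ?_).trans (Real.exp_le_exp.2 ?_)
  · obtain ⟨h1, h2, P, hP⟩ := hF x hx
    refine ⟨h1, h2, P, hP, fun l => ?_⟩
    have := hrl x P h1 hP l
    rw [sub_zero, one_mul]
    linarith
  · have hl : 1 ≤ Real.log X := by
      rw [Real.le_log_iff_exp_le (by linarith)]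
      linarith [Real.exp_one_lt_d9]
    have e0 : ∑ l : Fin q, √(8 * (0 : ℝ) * X / Real.log X) = 0 := by
      refine Finset.sum_eq_zero fun l _ => ?_
      rw [mul_zero, zero_mul, zero_div, Real.sqrt_zero]
    have e1 : √(X / Real.log X) ≤ X := by
      rw [Real.sqrt_le_left (by linarith)]
      have h1 : X / Real.log X ≤ X := div_le_self (by linarith) hl
      nlinarith
    have e2 : ε * √(X / Real.log X) ≤ 1 * X :=
      mul_le_mul hε1 e1 (Real.sqrt_nonneg _) zero_le_one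
    rw [e0, Finset.sum_const_zero]
    linarith

/-- **The upper bound.** -/
theorem upper3 (α : Fin 3 → K × K) (S : Finset (Pr K)) (hα : Al α) (hS : Gd S α) :
    ∃ θ : ℝ, 0 < θ ∧ ∀ a : Fin 3 → ℝ, 0 < a 0 → a 0 ≤ a 1 → a 1 ≤ a 2 → a 0 < a 2 →
      a 2 ≤ (1 + θ) * a 0 → ∀ ε C₀ : ℝ, 0 < ε → 0 ≤ C₀ → ∀ᶠ Y : ℝ in atTop, ∀ F : Finset K,
      (∀ x ∈ F, Of α x ∧ ∃ P, IsP S α x P ∧ ∀ l, rl (P l) ≤ a l * Y + C₀) →
      (F.card : ℝ) ≤ Real.exp ((a 0 + a 1) * Y +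
        (√(8 * (a 2 - a 0)) + √(8 * (a 2 - a 1)) + ε) * √(Y / Real.log Y)) := by
  classical
  obtain ⟨C, ν, hC, hν, hlarge⟩ := Pool.Agent.R365.SH.all_upper (q := 3) le_rfl (↑S : Set (Pr K))
    S.finite_toSet α hα.1 hα.2 (1 / 4) (by norm_num) (by norm_num)
  obtain ⟨C₁, hC₁, hrl⟩ := rl_le_hr hα S
  refine ⟨min ν (1 / 24), lt_min hν (by norm_num), ?_⟩
  intro a ha0 h01 h12 h02 hθ ε C₀ hε hC₀
  have hθ1 : a 2 ≤ (1 + 1 / 24) * a 0 := hθ.trans
    (mul_le_mul_of_nonneg_right (by linarith [min_le_right ν (1 / 24)]) ha0.le)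
  have hθ2 : a 2 ≤ (1 + ν) * a 0 := hθ.trans
    (mul_le_mul_of_nonneg_right (by linarith [min_le_left ν (1 / 24)]) ha0.le)
  obtain ⟨s, hs⟩ : ∃ s : ℝ, s = a 0 + a 1 + a 2 := ⟨_, rfl⟩
  obtain ⟨m₁, hm₁⟩ : ∃ m₁ : ℝ, m₁ = 4 * a 2 - s := ⟨_, rfl⟩
  have hm₁0 : 0 < m₁ := by rw [hm₁, hs]; linarith
  obtain ⟨c, hc⟩ : ∃ c : ℝ, c = m₁ + 1 := ⟨_, rfl⟩
  have hc0 : 0 < c := by rw [hc]; linarith
  obtain ⟨B, hB⟩ : ∃ B : ℝ, B = √(8 * (a 2 - a 0)) + √(8 * (a 2 - a 1)) := ⟨_, rfl⟩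
  have hB0 : 0 ≤ B := by rw [hB]; positivity
  obtain ⟨ε₁, hε₁⟩ : ∃ ε₁ : ℝ, ε₁ = min 1 (ε / (2 * (B + 2 * √c + 1))) := ⟨_, rfl⟩
  have hd0 : 0 < 2 * (B + 2 * √c + 1) := by positivity
  have he0 : 0 < ε₁ := by rw [hε₁]; exact lt_min one_pos (by positivity)
  have he1 : ε₁ ≤ 1 := by rw [hε₁]; exact min_le_left _ _
  have he2 : ε₁ * B + 2 * ε₁ * √c ≤ ε / 2 := by
    have h1 : ε₁ ≤ ε / (2 * (B + 2 * √c + 1)) := by rw [hε₁]; exact min_le_right _ _
    rw [le_div_iff₀ hd0] at h1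
    nlinarith
  obtain ⟨b, hb⟩ : ∃ b : ℝ, b = (a 0 + a 1) / 4 := ⟨_, rfl⟩
  have hb0 : 0 < b := by rw [hb]; linarith
  obtain ⟨X₀, hX₀, hup⟩ := Run7.h585.LD.upju K 3 1 (by norm_num) le_rfl (basq_all K) (cellq_all K)
    (rank_all K) (Pool.Agent.N654.QP.bigq3 K) α S (1 / 4) ε₁ (C₀ + C₁ + 1) hα hS (by norm_num) he0
    (by positivity)
  obtain ⟨A, hA⟩ : ∃ A : ℝ, A = c + 1 + 2 * C * Real.exp (3 * C₀) := ⟨_, rfl⟩
  have hA0 : 0 < A := by rw [hA]; positivity
  filter_upwards [ev_log hb0 ε₁ he0, ev_small (ε / 2) A 18 (by positivity) hA0,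
    eventually_ge_atTop (X₀ / b), eventually_ge_atTop (3 / b), eventually_ge_atTop (6 / a 0),
    eventually_ge_atTop (1 : ℝ)] with Y ⟨hY1, hlog⟩ hsm hYX hY3 hY6 hY11
  intro F hF
  have hY0 : 0 < Y := by linarith
  rw [div_le_iff₀ hb0] at hYX hY3
  rw [div_le_iff₀ ha0] at hY6
  rw [← hB]
  obtain ⟨R, hR⟩ : ∃ R : ℝ, R = √(Y / Real.log Y) := ⟨_, rfl⟩
  have hR0 : 0 ≤ R := by rw [hR]; exact Real.sqrt_nonneg _
  rw [← hR] at hsm ⊢
  have hs3 : 3 * a 0 ≤ s := by rw [hs]; linarith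
  have hm₁s : m₁ ≤ 7 / 6 * a 0 := by rw [hm₁]; linarith
  have ha2m : a 2 ≤ m₁ := by rw [hm₁, hs]; linarith
  -- the three parts
  obtain ⟨E3, hE3⟩ : ∃ E3 : Finset K, E3 = F.filter (fun x => m₁ * Y < hr (aff x)) := ⟨_, rfl⟩
  obtain ⟨E0, hE0⟩ : ∃ E0 : Finset K, E0 = F.filter (fun x => hr (aff x) ≤ b * Y) := ⟨_, rfl⟩
  obtain ⟨E1, hE1⟩ : ∃ E1 : Finset K, E1 = F.filter
    (fun x => hr (aff x) ≤ m₁ * Y ∧ b * Y < hr (aff x)) := ⟨_, rfl⟩
  have hsub : F ⊆ E3 ∪ E0 ∪ E1 := by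
    intro p hp
    rw [mem_union, mem_union, hE3, hE0, hE1, mem_filter, mem_filter, mem_filter]
    rcases le_or_gt (hr (aff p)) (m₁ * Y) with h | h
    · rcases le_or_gt (hr (aff p)) (b * Y) with h' | h'
      · exact Or.inl (Or.inr ⟨hp, h'⟩)
      · exact Or.inr ⟨hp, h, h'⟩
    · exact Or.inl (Or.inl ⟨hp, h⟩)
  have hcd : (F.card : ℝ) ≤ E3.card + E0.card + E1.card := by
    have h2 := (card_le_card hsub).trans ((card_union_le _ _).trans
      (Nat.add_le_add_right (card_union_le _ _) _))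
    exact_mod_cast h2
  -- large heights
  have b3 : (E3.card : ℝ) ≤ 2 * C * Real.exp (3 * C₀) * Real.exp ((a 0 + a 1) * Y) := by
    have hΛ : 0 ≤ s * Y + 3 * C₀ := by
      have : 0 ≤ s * Y := mul_nonneg (by linarith) hY0.le
      linarith
    have h1 := hlarge (s * Y + 3 * C₀) (4 * (3 * a 2 - s) * Y - 3 * C₀) hΛ E3 ?_
    · refine h1.trans ?_
      push_cast
      have g1 : Real.exp (2 / 3 * (s * Y + 3 * C₀) - 1 / 4 * (4 * (3 * a 2 - s) * Y - 3 * C₀)) ≤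
          Real.exp (3 * C₀ + (a 0 + a 1) * Y) := by
        refine Real.exp_le_exp.2 ?_
        have : (5 / 3 * s - 3 * a 2) * Y ≤ (a 0 + a 1) * Y :=
          mul_le_mul_of_nonneg_right (by rw [hs]; linarith) hY0.le
        linarith
      have g2 : Real.exp ((2 / 3 - ν) * (s * Y + 3 * C₀)) ≤
          Real.exp (3 * C₀ + (a 0 + a 1) * Y) := by
        refine Real.exp_le_exp.2 ?_
        have h3 : (2 / 3 - ν) * s ≤ a 0 + a 1 := by
          have : ν * a 0 ≤ ν * s := mul_le_mul_of_nonneg_left (by linarith) hν.le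
          rw [hs] at this ⊢
          linarith
        have h4 := mul_le_mul_of_nonneg_right h3 hY0.le
        have h5 : 0 ≤ ν * C₀ := mul_nonneg hν.le hC₀
        linarith
      have g3 : Real.exp (3 * C₀ + (a 0 + a 1) * Y) =
          Real.exp (3 * C₀) * Real.exp ((a 0 + a 1) * Y) := Real.exp_add _ _
      calc C * (Real.exp (2 / 3 * (s * Y + 3 * C₀) - 1 / 4 * (4 * (3 * a 2 - s) * Y - 3 * C₀)) +
            Real.exp ((2 / 3 - ν) * (s * Y + 3 * C₀)))
          ≤ C * (Real.exp (3 * C₀ + (a 0 + a 1) * Y) + Real.exp (3 * C₀ + (a 0 + a 1) * Y)) :=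
            mul_le_mul_of_nonneg_left (add_le_add g1 g2) hC.le
        _ = _ := by rw [g3]; ring
    · intro x hx
      rw [hE3, mem_filter] at hx
      obtain ⟨hxF, hx1⟩ := hx
      obtain ⟨g1, P, g2, g3⟩ := hF x hxF
      have g4 := Pool.Agent.N575.QP.tr_le_rl P
      rw [Fin.sum_univ_three] at g4
      have g5 : NTc (↑S : Set (Pr K)) α x ≤ s * Y + 3 * C₀ := by
        rw [ntc_tr hα hS g1 g2]
        have := g3 0
        have := g3 1
        have := g3 2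
        rw [hs]
        linarith
      refine ⟨fun l => Pool.Agent.N954.KG.of_wedge g1 l, g5, ?_⟩
      push_cast
      rw [hm₁] at hx1
      linarith
  -- small heights
  have b0 : (E0.card : ℝ) ≤ Real.exp ((a 0 + a 1) * Y) := by
    have h1 := small_part hX₀ hrl 1 ε₁ (1 / 4) (C₀ + C₁ + 1) he0 he1 (by linarith) (by norm_num) hup
      (X := b * Y) (by linarith) (by linarith) E0 ?_
    · refine h1.trans (Real.exp_le_exp.2 ?_)
      have : 0 ≤ (a 0 + a 1) * Y := mul_nonneg (by linarith) hY0.le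
      rw [hb]
      linarith
    · intro x hx
      rw [hE0, mem_filter] at hx
      obtain ⟨g1, P, g2, -⟩ := hF x hx.1
      exact ⟨g1, hx.2, P, g2⟩
  -- the windows
  have b1 : (E1.card : ℝ) ≤ (c * Y + 1) * Real.exp ((a 0 + a 1) * Y + 18 + (B + ε / 2) * R) := by
    obtain ⟨f, hf⟩ : ∃ f : K → ℕ, f = fun x => ⌈hr (aff x)⌉₊ := ⟨_, rfl⟩
    have hfp : ∀ x ∈ E1, hr (aff x) ≤ (f x : ℝ) ∧ (f x : ℝ) < hr (aff x) + 1 := by
      intro x hx
      rw [hf]
      exact ⟨Nat.le_ceil _, Nat.ceil_lt_add_one (hr_aff_nonneg x)⟩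
    have hE1' : ∀ x ∈ E1, x ∈ F ∧ hr (aff x) ≤ m₁ * Y ∧ b * Y < hr (aff x) := by
      intro x hx
      rw [hE1, mem_filter] at hx
      exact hx
    have hcY : m₁ * Y + 1 ≤ c * Y := by rw [hc]; linarith
    have hmem : ∀ x ∈ E1, f x ∈ range (⌊c * Y⌋₊ + 1) := by
      intro x hx
      rw [mem_range, Nat.lt_succ_iff]
      refine Nat.le_floor ?_
      linarith [(hfp x hx).2, (hE1' x hx).2.1]
    have hcard : E1.card = ∑ m ∈ range (⌊c * Y⌋₊ + 1), (E1.filter (fun x => f x = m)).card :=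
      card_eq_sum_card_fiberwise hmem
    have hpart : ∀ m ∈ range (⌊c * Y⌋₊ + 1), ((E1.filter (fun x => f x = m)).card : ℝ) ≤
        Real.exp ((a 0 + a 1) * Y + 18 + (B + ε / 2) * R) := by
      intro m hm
      rcases (E1.filter (fun x => f x = m)).eq_empty_or_nonempty with he | ⟨x0, hx0⟩
      · rw [he, card_empty, Nat.cast_zero]
        exact (Real.exp_pos _).le
      obtain ⟨hx0E, hx0m⟩ := mem_filter.1 hx0
      have hm1 : b * Y < (m : ℝ) := by
        rw [← hx0m]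
        exact (hE1' x0 hx0E).2.2.trans_le (hfp x0 hx0E).1
      have hm2 : (m : ℝ) ≤ m₁ * Y + 1 := by
        rw [← hx0m]
        linarith [(hfp x0 hx0E).2, (hE1' x0 hx0E).2.1]
      have hm0 : (0 : ℝ) < m := by linarith
      obtain ⟨hl1, hl2⟩ := hlog m hm1.le
      have haY : ∀ l, 0 ≤ a l * Y := by
        intro l
        refine mul_nonneg ?_ hY0.le
        fin_cases l
        · exact ha0.le
        · show 0 ≤ a 1
          linarith
        · show 0 ≤ a 2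
          linarith
      have hmm : 0 < m₁ * Y + 1 := by linarith
      have hsumκ : ∑ l, kp (a l) Y m ≤ 1 - 1 / 4 := by
        have k0 : kp (a 0) Y m ≤ 1 - a 0 * Y / (m₁ * Y + 1) := kp_le hm0 hm2 (haY 0) (by
          have : a 0 * Y ≤ m₁ * Y := mul_le_mul_of_nonneg_right (by linarith) hY0.le
          linarith)
        have k1 : kp (a 1) Y m ≤ 1 - a 1 * Y / (m₁ * Y + 1) := kp_le hm0 hm2 (haY 1) (by
          have : a 1 * Y ≤ m₁ * Y := mul_le_mul_of_nonneg_right (by linarith) hY0.le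
          linarith)
        have k2 : kp (a 2) Y m ≤ 1 - a 2 * Y / (m₁ * Y + 1) := kp_le hm0 hm2 (haY 2) (by
          have : a 2 * Y ≤ m₁ * Y := mul_le_mul_of_nonneg_right (by linarith) hY0.le
          linarith)
        have k3 : 9 / 4 ≤ s * Y / (m₁ * Y + 1) := by
          rw [le_div_iff₀ hmm]
          have h7 : m₁ * Y ≤ 7 / 6 * a 0 * Y := mul_le_mul_of_nonneg_right hm₁s hY0.le
          have h8 : 3 * a 0 * Y ≤ s * Y := mul_le_mul_of_nonneg_right hs3 hY0.le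
          linarith
        have k4 : s * Y / (m₁ * Y + 1) = a 0 * Y / (m₁ * Y + 1) + a 1 * Y / (m₁ * Y + 1) +
            a 2 * Y / (m₁ * Y + 1) := by
          rw [hs]; ring
        rw [Fin.sum_univ_three]
        linarith
      have h1 := hup m (by linarith) (fun l => kp (a l) Y m) (fun l => kp_nonneg _ _ _) hsumκ
        (E1.filter (fun x => f x = m)) ?_
      · refine h1.trans (Real.exp_le_exp.2 ?_)
        have h2 := three_bound (a := a) (Y := Y) (m := m) h01 h12 hY0.le hm0 hl1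
        have h3 : √(8 * (a 2 - a 0) * Y / Real.log m) ≤ (1 + ε₁) * (√(8 * (a 2 - a 0)) * R) := by
          have h4 := sqrt_log_le (c := 8 * (a 2 - a 0)) he0.le (by linarith) hY1 hl1 hl2
          rw [mul_div_assoc (8 * (a 2 - a 0)) Y (Real.log Y),
            Real.sqrt_mul (by linarith : 0 ≤ 8 * (a 2 - a 0)), ← hR] at h4
          exact h4
        have h3' : √(8 * (a 2 - a 1) * Y / Real.log m) ≤ (1 + ε₁) * (√(8 * (a 2 - a 1)) * R) := by
          have h4 := sqrt_log_le (c := 8 * (a 2 - a 1)) he0.le (by linarith) hY1 hl1 hl2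
          rw [mul_div_assoc (8 * (a 2 - a 1)) Y (Real.log Y),
            Real.sqrt_mul (by linarith : 0 ≤ 8 * (a 2 - a 1)), ← hR] at h4
          exact h4
        have h5 : √((m : ℝ) / Real.log m) ≤ 2 * (√c * R) := by
          have h6 : √((m : ℝ) / Real.log m) ≤ √(c * Y / Real.log m) := by
            refine Real.sqrt_le_sqrt (div_le_div_of_nonneg_right ?_ (by linarith))
            linarith
          have h4 := sqrt_log_le (c := c) he0.le hc0.le hY1 hl1 hl2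
          rw [mul_div_assoc c Y (Real.log Y), Real.sqrt_mul hc0.le, ← hR] at h4
          refine h6.trans (h4.trans ?_)
          exact mul_le_mul_of_nonneg_right (by linarith) (by positivity)
        have h7 := mul_le_mul_of_nonneg_left h5 he0.le
        have h8 : (ε₁ * B + 2 * ε₁ * √c) * R ≤ ε / 2 * R := mul_le_mul_of_nonneg_right he2 hR0
        have h9 : (1 + ε₁) * (√(8 * (a 2 - a 0)) * R) + (1 + ε₁) * (√(8 * (a 2 - a 1)) * R) =
            B * R + ε₁ * B * R := by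
          rw [hB]; ring
        linarith
      · intro x hx
        obtain ⟨hxE, hxm⟩ := mem_filter.1 hx
        obtain ⟨k1, k2⟩ := hfp x hxE
        rw [hxm] at k1 k2
        obtain ⟨hxF, -, -⟩ := hE1' x hxE
        obtain ⟨g1, P, g2, g3⟩ := hF x hxF
        refine ⟨g1, k1, P, g2, fun l => ?_⟩
        exact kp_radical hC₀ hC₁ hm0 (by linarith) (haY l) (g3 l) (hrl x P g1 g2 l)
    rw [hcard]
    push_cast
    refine (sum_le_card_nsmul _ _ _ hpart).trans ?_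
    rw [card_range, nsmul_eq_mul]
    refine mul_le_mul_of_nonneg_right ?_ (Real.exp_pos _).le
    push_cast
    linarith [Nat.floor_le (show 0 ≤ c * Y by positivity)]
  -- the sum
  have hge : Real.exp ((a 0 + a 1) * Y) ≤
      Real.exp ((a 0 + a 1) * Y + 18 + (B + ε / 2) * R) := by
    refine Real.exp_le_exp.2 ?_
    have : 0 ≤ (B + ε / 2) * R := by positivity
    linarith
  have hC3 : 0 ≤ 2 * C * Real.exp (3 * C₀) := by positivity
  have hge2 := mul_le_mul_of_nonneg_left hge hC3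
  have b5 : (F.card : ℝ) ≤ A * (Y + 5) * Real.exp ((a 0 + a 1) * Y + 18 + (B + ε / 2) * R) := by
    obtain ⟨W, hW⟩ : ∃ W : ℝ, W = Real.exp ((a 0 + a 1) * Y + 18 + (B + ε / 2) * R) := ⟨_, rfl⟩
    have hW0 : 0 < W := by rw [hW]; exact Real.exp_pos _
    rw [← hW] at b1 hge hge2 ⊢
    obtain ⟨C3, hC3'⟩ : ∃ C3 : ℝ, C3 = 2 * C * Real.exp (3 * C₀) := ⟨_, rfl⟩
    rw [← hC3'] at hge2 b3 hC3
    have hA' : A = c + 1 + C3 := by rw [hA, hC3']
    have h1 : (F.card : ℝ) ≤ (c * Y + 1 + 1 + C3) * W := by nlinarith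
    refine h1.trans (mul_le_mul_of_nonneg_right ?_ hW0.le)
    rw [hA']
    have h2 : C3 * 1 ≤ C3 * (Y + 5) := mul_le_mul_of_nonneg_left (by linarith) hC3
    nlinarith
  refine b5.trans ?_
  have hAY : 0 < A * (Y + 5) := mul_pos hA0 (by linarith)
  have e5 : A * (Y + 5) = Real.exp (Real.log (A * (Y + 5))) := (Real.exp_log hAY).symm
  rw [e5, ← Real.exp_add]
  refine Real.exp_le_exp.2 ?_
  have : (B + ε) * R = (B + ε / 2) * R + ε / 2 * R := by ring
  rw [this]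
  linarith

end

end Pool.Agent.Run7.h151.FN
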