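import Pool.Agent.Run7.h151.FN.UpJ

/-!
# The exceptions ordered by the truncated counting function: the upper bound
-/

set_option autoImplicit false
set_option linter.unusedSectionVars false

namespace Pool.Agent.Run7.h151.FN

open NumberField IsDedekindDomain Finset Filter Topology Pool.Agent.H691R3 Pool.Agent.W223.AK
open Pool.Agent.N906.KG

section

variable {K : Type} [Field K] [NumberField K] {q : ℕ}

/-- **The upper bound.** -/
theorem upperT (hq : 3 ≤ q) (α : Fin q → K × K) (S : Finset (Pr K)) (hα : Al α) (hS : Gd S α) :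
    ∃ κ₀ : ℝ, 0 < κ₀ ∧ κ₀ ≤ 1 / 4 ∧ ∀ κ : ℝ, 0 < κ → κ ≤ κ₀ → ∀ ε C₀ : ℝ, 0 < ε → 0 ≤ C₀ →
      ∀ᶠ Y : ℝ in atTop, ∀ F : Finset K,
      (∀ x ∈ F, Of α x ∧ ∃ P, IsP S α x P ∧ tr P ≤ Y + C₀ ∧
        tr P ≤ ((q : ℝ) - κ) * hr (aff x) + C₀) →
      (F.card : ℝ) ≤ Real.exp ((2 - κ) / ((q : ℝ) - κ) * Y +
        (√(8 * q * (κ / ((q : ℝ) - κ))) + ε) * √(Y / Real.log Y)) := by
  classical
  have hqR : (3 : ℝ) ≤ q := by exact_mod_cast hq
  have hq0 : (0 : ℝ) < q := by linarith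
  obtain ⟨j, hj⟩ : ∃ j : ℝ, j = 1 / (q : ℝ) := ⟨_, rfl⟩
  have hjq : j * q = 1 := by rw [hj]; field_simp
  have hj0 : 0 < j := by rw [hj]; positivity
  have hj1 : j ≤ 1 / 3 := by rw [hj]; exact one_div_le_one_div_of_le (by norm_num) hqR
  have h2q : (2 : ℝ) / q = 2 * j := by rw [hj]; ring
  obtain ⟨C, ν, hC, hν, hlarge⟩ := Pool.Agent.R365.SH.all_upper hq (↑S : Set (Pr K))
    S.finite_toSet α hα.1 hα.2 (3 / 4 * (1 - 2 / q)) (by rw [h2q]; linarith)
    (by rw [h2q]; linarith)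
  rw [h2q] at hlarge
  obtain ⟨C₁, hC₁, hrl⟩ := rl_le_hr hα S
  refine ⟨min ν (1 / 4), lt_min hν (by norm_num), min_le_right _ _, ?_⟩
  intro κ hκ0 hκ ε C₀ hε hC₀
  have hκν : κ ≤ ν := hκ.trans (min_le_left _ _)
  have hκ4 : κ ≤ 1 / 4 := hκ.trans (min_le_right _ _)
  have hqκ : 0 < (q : ℝ) - κ := by linarith
  obtain ⟨i, hi⟩ : ∃ i : ℝ, i = 1 / ((q : ℝ) - κ) := ⟨_, rfl⟩
  have hi0 : 0 < i := by rw [hi]; positivity
  have hi1 : i ≤ 1 := by
    rw [hi, div_le_one hqκ]; linarith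
  have hiq : i * (q - κ) = 1 := by rw [hi]; field_simp
  have hE : (2 - κ) / ((q : ℝ) - κ) = (2 - κ) * i := by rw [hi]; ring
  have hκi : κ / ((q : ℝ) - κ) = κ * i := by rw [hi]; ring
  -- `(2 - κ) i = 2 j - (1 - 2 j) κ i`
  have hEj : (2 - κ) * i = 2 * j - (1 - 2 * j) * κ * i := by
    have h1 : i = j + j * κ * i := by
      linear_combination (-j) * hiq * (-1) + i * hjq * (-1)
    linear_combination 2 * h1
  have hκi0 : 0 < κ * i := by positivity
  obtain ⟨m₁, hm₁⟩ : ∃ m₁ : ℝ, m₁ = (q + κ) / (q * ((q : ℝ) - κ)) := ⟨_, rfl⟩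
  have hm₁0 : 0 < m₁ := by rw [hm₁]; positivity
  have hqm₁ : (q : ℝ) * m₁ = 1 + 2 * (κ * i) := by
    rw [hm₁, hi]
    field_simp
    ring
  obtain ⟨c, hc⟩ : ∃ c : ℝ, c = m₁ + 1 := ⟨_, rfl⟩
  have hc0 : 0 < c := by rw [hc]; linarith
  obtain ⟨B, hB⟩ : ∃ B : ℝ, B = √(8 * q * (κ / ((q : ℝ) - κ))) := ⟨_, rfl⟩
  have hB0 : 0 ≤ B := by rw [hB]; positivity
  have hB2 : 0 ≤ 8 * q * (κ / ((q : ℝ) - κ)) := by positivity
  obtain ⟨ε₁, hε₁⟩ : ∃ ε₁ : ℝ, ε₁ = min 1 (ε / (6 * (B + 1))) := ⟨_, rfl⟩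
  have hd0 : 0 < 6 * (B + 1) := by positivity
  have he0 : 0 < ε₁ := by rw [hε₁]; exact lt_min one_pos (by positivity)
  have he1 : ε₁ ≤ 1 := by rw [hε₁]; exact min_le_left _ _
  have he2 : 3 * ε₁ * B ≤ ε / 2 := by
    have h1 : ε₁ ≤ ε / (6 * (B + 1)) := by rw [hε₁]; exact min_le_right _ _
    rw [le_div_iff₀ hd0] at h1
    nlinarith
  obtain ⟨E, hEd⟩ : ∃ E : ℝ, E = (2 - κ) / ((q : ℝ) - κ) := ⟨_, rfl⟩
  have hE0 : 0 < E := by rw [hEd]; exact div_pos (by linarith) hqκ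
  obtain ⟨b, hb⟩ : ∃ b : ℝ, b = E / 4 := ⟨_, rfl⟩
  have hb0 : 0 < b := by rw [hb]; linarith
  obtain ⟨X₀, hX₀, hup⟩ := Run7.h585.LD.upju K q (6 / 7) (by omega) (by norm_num) (basq_all K)
    (cellq_all K) (rank_all K) (Pool.Agent.N654.QP.bigq K q (by omega)) α S (1 / 7) ε₁ C₁ hα hS
    (by norm_num) he0 hC₁
  obtain ⟨X₁, hX₁, hwin⟩ := upu_all K q (by omega) α S (κ / 2) ε₁ hα hS (by positivity) he0
  obtain ⟨C', hC'⟩ : ∃ C' : ℝ, C' = C₀ + q := ⟨_, rfl⟩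
  have hC'0 : 0 ≤ C' := by rw [hC']; linarith
  obtain ⟨A, hA⟩ : ∃ A : ℝ, A = c + 1 + 2 * C * Real.exp (2 * C₀) := ⟨_, rfl⟩
  have hA0 : 0 < A := by rw [hA]; positivity
  filter_upwards [ev_log hb0 ε₁ he0, ev_small (ε / 2) A (C' + 8 * q ^ 2) (by positivity) hA0,
    eventually_ge_atTop (X₀ / b), eventually_ge_atTop (X₁ / b), eventually_ge_atTop (3 / b),
    eventually_ge_atTop (C' / (κ / 2 * b)), eventually_ge_atTop (4 * q / (κ / (q : ℝ) ^ 2)),
    eventually_ge_atTop (1 : ℝ)] with Y ⟨hY1, hlog⟩ hsm hYX hYX1 hY3 hYC hYq hY11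
  intro F hF
  have hY0 : 0 < Y := by linarith
  rw [div_le_iff₀ hb0] at hYX hYX1 hY3
  rw [div_le_iff₀ (by positivity)] at hYC hYq
  rw [← hB, ← hEd]
  obtain ⟨R, hR⟩ : ∃ R : ℝ, R = √(Y / Real.log Y) := ⟨_, rfl⟩
  have hR0 : 0 ≤ R := by rw [hR]; exact Real.sqrt_nonneg _
  rw [← hR] at hsm ⊢
  -- the three parts
  obtain ⟨E3, hE3⟩ : ∃ E3 : Finset K, E3 = F.filter (fun x => m₁ * Y < hr (aff x)) := ⟨_, rfl⟩
  obtain ⟨E0, hE0'⟩ : ∃ E0 : Finset K, E0 = F.filter (fun x => hr (aff x) ≤ b * Y) := ⟨_, rfl⟩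
  obtain ⟨E1, hE1⟩ : ∃ E1 : Finset K, E1 = F.filter
    (fun x => hr (aff x) ≤ m₁ * Y ∧ b * Y < hr (aff x)) := ⟨_, rfl⟩
  have hsub : F ⊆ E3 ∪ E0 ∪ E1 := by
    intro p hp
    rw [mem_union, mem_union, hE3, hE0', hE1, mem_filter, mem_filter, mem_filter]
    rcases le_or_gt (hr (aff p)) (m₁ * Y) with h | h
    · rcases le_or_gt (hr (aff p)) (b * Y) with h' | h'
      · exact Or.inl (Or.inr ⟨hp, h'⟩)
      · exact Or.inr ⟨hp, h, h'⟩
    · exact Or.inl (Or.inl ⟨hp, h⟩)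
  have hcd : (F.card : ℝ) ≤ E3.card + E0.card + E1.card := by
    have h2 := (card_le_card hsub).trans ((card_union_le _ _).trans
      (Nat.add_le_add_right (card_union_le _ _) _))
    exact_mod_cast h2
  -- large heights
  have b3 : (E3.card : ℝ) ≤ 2 * C * Real.exp (2 * C₀) * Real.exp (E * Y) := by
    have h1 := hlarge (Y + C₀) (2 * (κ * i) * Y - C₀) (by linarith) E3 ?_
    · refine h1.trans ?_
      have g1 : Real.exp (2 * j * (Y + C₀) - 3 / 4 * (1 - 2 * j) * (2 * (κ * i) * Y - C₀)) ≤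
          Real.exp (2 * C₀ + E * Y) := by
        refine Real.exp_le_exp.2 ?_
        have h2 : (2 * j - 3 / 4 * (1 - 2 * j) * (2 * (κ * i))) * Y ≤ E * Y := by
          refine mul_le_mul_of_nonneg_right ?_ hY0.le
          rw [hEd, hE, hEj]
          have : 0 ≤ (1 - 2 * j) * (κ * i) := mul_nonneg (by linarith) hκi0.le
          linarith
        have h3 : j * C₀ ≤ 1 / 3 * C₀ := mul_le_mul_of_nonneg_right hj1 hC₀
        have h4 : 0 ≤ j * C₀ := mul_nonneg hj0.le hC₀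
        linarith
      have g2 : Real.exp ((2 * j - ν) * (Y + C₀)) ≤ Real.exp (2 * C₀ + E * Y) := by
        refine Real.exp_le_exp.2 ?_
        have h2 : (2 * j - ν) * Y ≤ E * Y := by
          refine mul_le_mul_of_nonneg_right ?_ hY0.le
          rw [hEd, hE, hEj]
          have h5 : (1 - 2 * j) * κ * i ≤ 1 * κ * 1 := by
            have h6 : (1 - 2 * j) * κ ≤ 1 * κ := mul_le_mul_of_nonneg_right (by linarith) hκ0.le
            exact mul_le_mul h6 hi1 hi0.le (by linarith)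
          linarith
        have h3 : j * C₀ ≤ 1 / 3 * C₀ := mul_le_mul_of_nonneg_right hj1 hC₀
        have h4 : 0 ≤ ν * C₀ := mul_nonneg hν.le hC₀
        linarith
      have g3 : Real.exp (2 * C₀ + E * Y) = Real.exp (2 * C₀) * Real.exp (E * Y) :=
        Real.exp_add _ _
      calc C * (Real.exp (2 * j * (Y + C₀) - 3 / 4 * (1 - 2 * j) * (2 * (κ * i) * Y - C₀)) +
            Real.exp ((2 * j - ν) * (Y + C₀)))
          ≤ C * (Real.exp (2 * C₀ + E * Y) + Real.exp (2 * C₀ + E * Y)) :=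
            mul_le_mul_of_nonneg_left (add_le_add g1 g2) hC.le
        _ = _ := by rw [g3]; ring
    · intro x hx
      rw [hE3, mem_filter] at hx
      obtain ⟨hxF, hx1⟩ := hx
      obtain ⟨g1, P, g2, g3, g4⟩ := hF x hxF
      have g5 : NTc (↑S : Set (Pr K)) α x ≤ Y + C₀ := by
        rw [ntc_tr hα hS g1 g2]
        exact g3
      refine ⟨fun l => Pool.Agent.N954.KG.of_wedge g1 l, g5, ?_⟩
      have h6 : (q : ℝ) * (m₁ * Y) ≤ q * hr (aff x) := mul_le_mul_of_nonneg_left hx1.le hq0.le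
      have h7 : (q : ℝ) * (m₁ * Y) = (1 + 2 * (κ * i)) * Y := by rw [← hqm₁]; ring
      linarith
  -- small heights
  have b0 : (E0.card : ℝ) ≤ Real.exp (E * Y) := by
    have h1 := small_part hX₀ hrl (6 / 7) ε₁ (1 / 7) C₁ he0 he1 le_rfl (by norm_num) hup
      (X := b * Y) (by linarith) (by linarith) E0 ?_
    · refine h1.trans (Real.exp_le_exp.2 ?_)
      have : 0 ≤ E * Y := mul_nonneg hE0.le hY0.le
      rw [hb]
      linarith
    · intro x hx
      rw [hE0', mem_filter] at hx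
      obtain ⟨g1, P, g2, -⟩ := hF x hx.1
      exact ⟨g1, hx.2, P, g2⟩
  -- the windows
  have b1 : (E1.card : ℝ) ≤ (c * Y + 1) *
      Real.exp (E * Y + (C' + 8 * q ^ 2) + (B + ε / 2) * R) := by
    obtain ⟨f, hf⟩ : ∃ f : K → ℕ, f = fun x => ⌈hr (aff x)⌉₊ := ⟨_, rfl⟩
    have hfp : ∀ x ∈ E1, hr (aff x) ≤ (f x : ℝ) ∧ (f x : ℝ) < hr (aff x) + 1 := by
      intro x hx
      rw [hf]
      exact ⟨Nat.le_ceil _, Nat.ceil_lt_add_one (hr_aff_nonneg x)⟩
    have hE1' : ∀ x ∈ E1, x ∈ F ∧ hr (aff x) ≤ m₁ * Y ∧ b * Y < hr (aff x) := by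
      intro x hx
      rw [hE1, mem_filter] at hx
      exact hx
    have hcY : m₁ * Y + 1 ≤ c * Y := by rw [hc]; linarith
    have hmem : ∀ x ∈ E1, f x ∈ range (⌊c * Y⌋₊ + 1) := by
      intro x hx
      rw [mem_range, Nat.lt_succ_iff]
      refine Nat.le_floor ?_
      linarith [(hfp x hx).2, (hE1' x hx).2.1]
    have hcard : E1.card = ∑ m ∈ range (⌊c * Y⌋₊ + 1), (E1.filter (fun x => f x = m)).card :=
      card_eq_sum_card_fiberwise hmem
    have hpart : ∀ m ∈ range (⌊c * Y⌋₊ + 1), ((E1.filter (fun x => f x = m)).card : ℝ) ≤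
        Real.exp (E * Y + (C' + 8 * q ^ 2) + (B + ε / 2) * R) := by
      intro m hm
      rcases (E1.filter (fun x => f x = m)).eq_empty_or_nonempty with he | ⟨x0, hx0⟩
      · rw [he, card_empty, Nat.cast_zero]
        exact (Real.exp_pos _).le
      obtain ⟨hx0E, hx0m⟩ := mem_filter.1 hx0
      have hm1 : b * Y < (m : ℝ) := by
        rw [← hx0m]
        exact (hE1' x0 hx0E).2.2.trans_le (hfp x0 hx0E).1
      have hm2 : (m : ℝ) ≤ m₁ * Y + 1 := by
        rw [← hx0m]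
        linarith [(hfp x0 hx0E).2, (hE1' x0 hx0E).2.1]
      have hm0 : (0 : ℝ) < m := by linarith
      obtain ⟨hl1, hl2⟩ := hlog m hm1.le
      have hCm : C' ≤ κ / 2 * m := by
        have : κ / 2 * (b * Y) ≤ κ / 2 * m := mul_le_mul_of_nonneg_left hm1.le (by positivity)
        linarith
      obtain ⟨c1, c2⟩ := gq_cond (q := (q : ℝ)) (κ := κ) (C := C') (Y := Y) (m := m) (δ := κ / 2)
        hqR hκ0 hκ4 le_rfl hC'0 hCm hY0.le (by rw [← hm₁]; exact hm2) (by linarith)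
      have h1 := hwin m (gq q κ C' Y m) (E1.filter (fun x => f x = m)) (by linarith) c1 c2 ?_
      · refine h1.trans (Real.exp_le_exp.2 ?_)
        have h2 := gq_bound (q := (q : ℝ)) (κ := κ) (C := C') (Y := Y) (m := m)
          (L := Real.log m) (ε := ε₁) hqR hκ0 (by linarith) hC'0 hY0.le hl1 he0.le he1
        rw [← hEd] at h2
        have h3 : √(8 * q * (κ / ((q : ℝ) - κ)) * Y / Real.log m) ≤ (1 + ε₁) * (B * R) := by
          have h4 := sqrt_log_le (c := 8 * q * (κ / ((q : ℝ) - κ))) he0.le hB2 hY1 hl1 hl2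
          rw [mul_div_assoc (8 * q * (κ / ((q : ℝ) - κ))) Y (Real.log Y), Real.sqrt_mul hB2,
            ← hR, ← hB] at h4
          exact h4
        have h5 : (1 + ε₁) * √(8 * q * (κ / ((q : ℝ) - κ)) * Y / Real.log m) ≤
            (1 + ε₁) * ((1 + ε₁) * (B * R)) := mul_le_mul_of_nonneg_left h3 (by linarith)
        have h6 : (1 + ε₁) * (1 + ε₁) ≤ 1 + 3 * ε₁ := by nlinarith
        have h7 : (1 + ε₁) * ((1 + ε₁) * (B * R)) ≤ (1 + 3 * ε₁) * (B * R) := by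
          calc (1 + ε₁) * ((1 + ε₁) * (B * R)) = ((1 + ε₁) * (1 + ε₁)) * (B * R) := by ring
            _ ≤ _ := mul_le_mul_of_nonneg_right h6 (by positivity)
        have h8 : 3 * ε₁ * B * R ≤ ε / 2 * R := mul_le_mul_of_nonneg_right he2 hR0
        linarith
      · intro x hx
        obtain ⟨hxE, hxm⟩ := mem_filter.1 hx
        obtain ⟨k1, k2⟩ := hfp x hxE
        rw [hxm] at k1 k2
        obtain ⟨hxF, -, -⟩ := hE1' x hxE
        obtain ⟨g1, P, g2, g3, g4⟩ := hF x hxF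
        refine ⟨g1, by linarith, k1, P, g2, ?_⟩
        have h9 : gq q κ C' Y m ≤ q * hr (aff x) - tr P := by
          unfold gq
          refine max_le ?_ ?_
          · have : κ * m ≤ κ * (hr (aff x) + 1) := mul_le_mul_of_nonneg_left k2.le hκ0.le
            rw [hC']
            linarith
          · have : (q : ℝ) * m ≤ q * (hr (aff x) + 1) := mul_le_mul_of_nonneg_left k2.le hq0.le
            rw [hC']
            linarith
        linarith
    rw [hcard]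
    push_cast
    refine (sum_le_card_nsmul _ _ _ hpart).trans ?_
    rw [card_range, nsmul_eq_mul]
    refine mul_le_mul_of_nonneg_right ?_ (Real.exp_pos _).le
    push_cast
    linarith [Nat.floor_le (show 0 ≤ c * Y by positivity)]
  -- the sum
  have hge : Real.exp (E * Y) ≤ Real.exp (E * Y + (C' + 8 * q ^ 2) + (B + ε / 2) * R) := by
    refine Real.exp_le_exp.2 ?_
    have : 0 ≤ (B + ε / 2) * R := by positivity
    have : 0 ≤ 8 * (q : ℝ) ^ 2 := by positivity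
    linarith
  have hC3 : 0 ≤ 2 * C * Real.exp (2 * C₀) := by positivity
  have hge2 := mul_le_mul_of_nonneg_left hge hC3
  have b5 : (F.card : ℝ) ≤ A * (Y + 5) *
      Real.exp (E * Y + (C' + 8 * q ^ 2) + (B + ε / 2) * R) := by
    obtain ⟨W, hW⟩ : ∃ W : ℝ, W = Real.exp (E * Y + (C' + 8 * q ^ 2) + (B + ε / 2) * R) := ⟨_, rfl⟩
    have hW0 : 0 < W := by rw [hW]; exact Real.exp_pos _
    rw [← hW] at b1 hge hge2 ⊢
    obtain ⟨C3, hC3'⟩ : ∃ C3 : ℝ, C3 = 2 * C * Real.exp (2 * C₀) := ⟨_, rfl⟩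
    rw [← hC3'] at hge2 b3 hC3
    have hA' : A = c + 1 + C3 := by rw [hA, hC3']
    have h1 : (F.card : ℝ) ≤ (c * Y + 1 + 1 + C3) * W := by nlinarith
    refine h1.trans (mul_le_mul_of_nonneg_right ?_ hW0.le)
    rw [hA']
    have h2 : C3 * 1 ≤ C3 * (Y + 5) := mul_le_mul_of_nonneg_left (by linarith) hC3
    nlinarith
  refine b5.trans ?_
  have hAY : 0 < A * (Y + 5) := mul_pos hA0 (by linarith)
  have e5 : A * (Y + 5) = Real.exp (Real.log (A * (Y + 5))) := (Real.exp_log hAY).symm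
  rw [e5, ← Real.exp_add]
  refine Real.exp_le_exp.2 ?_
  have : (B + ε) * R = (B + ε / 2) * R + ε / 2 * R := by ring
  rw [this]
  linarith

end

end Pool.Agent.Run7.h151.FN
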